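import Pool.Agent.H35.S3.Nrp
import Pool.Agent.H12.S3.Fsx
import Pool.Agent.H77.INP.Inp

/-!
# H35-S3-NR3: `NR3 p` (D5 (b) in the form of H12/S3/Defs.lean) from the box lemma `PBL p` (MP_b39724_nt, stage 3)

`tc_nr`: `Tc c` is the normal subgroup of all classes. `nr1`: one fibre, from `nrp` and the words of `H77.INP.fx_of`. `nr3`.
-/

set_option autoImplicit false
set_option linter.dupNamespace false

open scoped NumberField
open IsDedekindDomain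
open scoped Classical

noncomputable section

namespace H35.S3

open H38.ML H63.MA H38.BB H38.BG H57.PC H57.BRA H38.AS H77.WD H77.WE H77.GL H77.PC3 H77.PLF
  H35.CF H35.UB H35.UX H35.AC H51.PF H51.AC2 H51.F3 H24.RK H62.BL H12.S3 H77.INP

theorem tc_nr {p N : ℕ} {P : Type} [Group P] (c : CL p N P) :
    NR c Finset.univ = Subgroup.normalClosure (Set.range c.g) := by
  refine le_antisymm ?_ ?_
  · refine Subgroup.normalClosure_le_normal ?_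
    rintro x ⟨i, -, hx⟩
    obtain ⟨w, hw⟩ := isConj_iff.1 hx.symm
    rw [← hw]
    exact Subgroup.normalClosure_normal.conj_mem _
      (Subgroup.subset_normalClosure (Set.mem_range_self i)) _
  · refine Subgroup.normalClosure_le_normal ?_
    rintro x ⟨i, rfl⟩
    exact g_mem c i

variable {K : IntermediateField ℚ QBar} [NumberField K] {p N : ℕ} {ζ : K}
  {P : Type} [Group P] [Fintype P]

theorem nr1 (hp : p.Prime) (hζ : IsPrimitiveRoot ζ p) (D : RD0 K p ζ) (hP : IsPGroup p P)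
    {κ k n : ℕ} (hκ : ∀ x : P, x ^ p ^ κ = 1) (hk : 3 ≤ k) (hkκ : κ ≤ k)
    (hkm : Nat.card P * Nat.card P ≤ p ^ k) (hn : 2 * k + 1 ≤ n)
    {z : K} (hz : IsPrimitiveRoot z (p ^ (n + 1))) (hzζ : z ^ p ^ n = ζ)
    (hB : Inp D QBar k (n + 1) z (SBL D QBar κ (Nat.card P * Nat.card P)))
    (c : CL p N P) (hN : 1 ≤ N) (L : LDs D QBar) (hL : NL (n + 1) z L) (Fr : FR L)
    (Q : DP K QBar) (φb φ' : Gal(QBar/K) →* P) (E : Finset (Pl K)) (hF : Fib L c φb φ' E) :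
    NR1 L Fr Q c φb φ' E := by
  intro x w hw0 hw1
  obtain ⟨hm1, -⟩ := mone_k hp (by omega : 1 ≤ n) hz
  obtain ⟨A, Q', B', hAB⟩ := fx_of (Ω := QBar) hp hζ hk hn hz hzζ D
  have hU : Unz L E φb := ⟨hF.ft, hF.un⟩
  obtain ⟨B, M₀, hB0, hM₀⟩ := nrp hp hm1 hζ D hP κ hκ c hN φb hF.ft hF.sj x w hw0 hw1.le E L
    hU A
  refine ⟨B, M₀, hB0, fun M hM ε hε hε1 => ?_⟩
  obtain ⟨C, C₁, A₀, Y₀, hC, hC₁, hA₀, hY₀, h⟩ := hM₀ M hM ε hε hε1
  obtain ⟨Mg, Cg, hMg⟩ := hB A Q' B' C₁ A₀ ε hε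
  refine ⟨C, Mg, Cg, fun C' => ?_⟩
  obtain ⟨Y₁, hY₁3, hY₁⟩ := hMg C'
  refine ⟨max Y₀ Y₁, fun Y hY s hsE hs => ?_⟩
  have hYa : Y₀ ≤ Y := (le_max_left _ _).trans hY
  have hYb : Y₁ ≤ Y := (le_max_right _ _).trans hY
  have hsim : SimL L (cjL L s) := sim_cj L s
  -- the set of primes
  obtain ⟨Zw, hZw⟩ : ∃ Zw : Finset (Pl K), Zw =
    E ∪ (H57.AN.PB K (Y ^ C₁)).filter (fun v => D.Gd v) := ⟨_, rfl⟩
  have hZ : ZwOk D C₁ Y Zw := by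
    refine ⟨fun v hv => ?_, fun v hv hn => ?_⟩
    · rw [hZw, Finset.mem_union, Finset.mem_filter] at hv
      rcases hv with hv | ⟨-, hv⟩
      · exact (hF.gd v hv).1
      · exact hv.1
    · rw [hZw, Finset.mem_union, Finset.mem_filter]
      exact Or.inr ⟨H57.AN.mem_PB.2 hn, hv⟩
  have hEZ : E ⊆ Zw := by
    rw [hZw]
    exact Finset.subset_union_left
  obtain ⟨W, Yw, hW⟩ := hAB (cjL L s) (nl_cj hL s) (cjF Fr s) Mg Cg C' Y C₁ hs Zw hZ.1 hZ.2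
    (Zw ∪ D.S0).toList (Finset.nodup_toList _) fun v => by
      rw [Finset.mem_toList, Finset.mem_union]
  have hpw : ∀ (H : Type) [Group H], (∀ x : H, x ^ p ^ κ = 1) → ∀ x : H, x ^ p ^ k = 1 := by
    intro H _ h1 x
    obtain ⟨d, hd⟩ := Nat.exists_eq_add_of_le hkκ
    rw [hd, pow_add, pow_mul, h1, one_pow]
  have hWB : WBx κ (Nat.card P * Nat.card P) (cjF Fr s) A W Zw E C₁ A₀ ε Y := by
    refine ⟨fun H _ _ h1 h2 h3 φ hφ => ?_, fun H _ _ h1 h2 h3 N' _ n' h4 h5 => ?_⟩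
    · exact (hW.rel.2.2.1 H ⟨h1, h2.trans hkm, hpw H h3⟩ φ hφ).1
    · have : Fintype H := Fintype.ofFinite H
      exact hY₁ Y hYb (cjL L s) (cjF Fr s) Zw _ W Yw hW H h2 h3 N' n' h4 h5 E hEZ
  obtain ⟨S, hS⟩ : ∃ S : Set (Gal(QBar/K) →* P), S =
    {φ | φ ∈ FS L Fr Q c φb φ' E Y ∧ Rch L c E M ε Y φ} := ⟨_, rfl⟩
  have hSf : S.Finite := by
    rw [hS]
    exact (fs_fin hp hζ L Fr Q hP c φb φ' E Y).subset fun φ hφ => hφ.1
  have h1 := h C₁ A₀ le_rfl le_rfl Y hYa (cjL L s) (cjF Fr s) hsim W Zw hZ hEZ hWB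
    hSf.toFinset (fun φ hφ => by
      rw [Set.Finite.mem_toFinset, hS] at hφ
      obtain ⟨h2, h3⟩ := hφ
      refine ⟨sim_pu hsim c E Y φ (fs_pu hp hζ L Fr Q hP c φb φ' E Y h2), fun σ => ?_,
        fun i => ?_⟩
      · have h4 : (φb σ)⁻¹ * φ σ ∈ NR c Finset.univ := by
          rw [tc_nr]
          exact h2.2.2.1 σ
        exact (QuotientGroup.eq.2 h4).symm
      · rw [sim_tyn hsim]
        exact h3 i)
  beta_reduce
  rw [← hS, finsum_mem_eq_finite_toFinset_sum _ hSf]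
  have h2 : ∀ φ : Gal(QBar/K) →* P, H12.S3.rn c (cjF Fr s) φb E (T0 ε Y) x φ =
      rF (cjL L s) (cjF Fr s) (NR c Finset.univ) x.1 E (T0 ε Y) φb φ := by
    intro φ
    unfold H12.S3.rn rF
    rw [tc_nr]
  rw [Finset.sum_congr rfl fun φ _ => by rw [h2 φ]]
  refine h1.trans (le_of_eq ?_)
  rw [Nat.card_eq_fintype_card, mul_assoc]

/-- D5 (b) FOR ALL `p`-GROUPS, from the box lemma -/
theorem nr3 {p : ℕ} (hp : p.Prime) (hB : PBL p) : NR3 p := by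
  intro P _ _ hP
  obtain ⟨κ, hκ⟩ : ∃ κ : ℕ, ∀ x : P, x ^ (p ^ κ) = 1 := by
    have : Fact p.Prime := ⟨hp⟩
    obtain ⟨κ, hκ⟩ := IsPGroup.iff_card.1 hP
    exact ⟨κ, fun x => by rw [← hκ]; exact pow_card_eq_one'⟩
  obtain ⟨m, hm⟩ : ∃ m : ℕ, m = Nat.card P * Nat.card P := ⟨_, rfl⟩
  obtain ⟨k₀, hk₀⟩ := hB κ m
  obtain ⟨k, hk⟩ : ∃ k, k = k₀ + κ + m + 3 := ⟨_, rfl⟩
  obtain ⟨n₀, hn₀⟩ := hk₀ k (by omega)
  obtain ⟨n, hn⟩ : ∃ n, n = n₀ + 2 * k + 1 := ⟨_, rfl⟩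
  refine ⟨n, fun N c hN K _ ζ hζ z hz hzζ D => ?_⟩
  intro L hL Fr Q _ φb φ' E hF
  refine nr1 (k := k) hp hζ D.toRD0 hP hκ (by omega) (by omega) ?_ (by omega) hz hzζ ?_ c hN L hL
    Fr Q φb φ' E hF
  · rw [← hm]
    calc m ≤ k := by omega
      _ ≤ 2 ^ k := Nat.lt_two_pow_self.le
      _ ≤ p ^ k := Nat.pow_le_pow_left hp.two_le k
  · rw [← hm]
    exact hn₀ n (by omega) K ζ hζ z hz hzζ D

end H35.S3
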