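import Pool.Agent.H35.S3.Psh

/-!
# H35-S3-NRP: the weighted upper bound for a fibre (MP_b39724_nt, stage 3, D5 (b))

`nrp`: the sum of `z ^ r_s(φ)` over the class-rich `φ` equal to `φb` modulo `T`.
-/

set_option autoImplicit false
set_option linter.dupNamespace false

open scoped NumberField
open IsDedekindDomain
open scoped Classical

noncomputable section

namespace H35.S3

open H63.MA H38.BB H38.BG H57.PC H57.BRA H77.WD H77.WE H77.PC3 H77.PLF H35.CF H35.UB H35.UX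

section main

variable {K : Type} [Field K] [NumberField K] {Ω : Type} [Field Ω] [Algebra K Ω]
  [IsAlgClosure K Ω] {p : ℕ} {ζ : K} {P : Type} [Group P] [Fintype P] {Nc : ℕ}

/-- THE WEIGHTED UPPER BOUND FOR A FIBRE -/
theorem nrp (hp : p.Prime) (hp2 : MOne p K) (hζ : IsPrimitiveRoot ζ p) (D : RD0 K p ζ)
    (hP : IsPGroup p P) (κ : ℕ) (hκ : ∀ x : P, x ^ p ^ κ = 1) (c : CL p Nc P) (hNc : 1 ≤ Nc)
    (φb : Gal(Ω/K) →* P) (hb1 : H38.ML.FT φb) (hsj : Function.Surjective φb) (s : Px c)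
    (z : ℝ) (hz0 : 0 < z) (hz1 : z ≤ 1) (E : Finset (Pl K)) (L₀ : LDs D Ω)
    (hU : Unz L₀ E φb) (A : GS D Ω) :
    ∃ (B : ℝ) (M₀ : ℕ), 0 ≤ B ∧ ∀ M : ℕ, M₀ ≤ M → ∀ ε : ℝ, 0 < ε → ε < 1 →
      ∃ C C₁ A₀ Y₀ : ℝ, 0 ≤ C ∧ 2 ≤ C₁ ∧ 0 ≤ A₀ ∧ 3 ≤ Y₀ ∧ ∀ C₁' A₀' : ℝ, C₁ ≤ C₁' → A₀ ≤ A₀' →
      ∀ Y : ℝ, Y₀ ≤ Y → ∀ (L : LDs D Ω) (Fr : FR L), SimL L₀ L →
      ∀ (W : Pl K → FW A) (Zw : Finset (Pl K)), ZwOk D C₁' Y Zw → E ⊆ Zw →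
      WBx κ (Nat.card P * Nat.card P) Fr A W Zw E C₁' A₀' ε Y →
      ∀ Rs : Finset (Gal(Ω/K) →* P), (∀ φ ∈ Rs, φ ∈ PU L c E Y ∧
        (∀ σ, (φ σ : P ⧸ NR c Finset.univ) = φb σ) ∧ ∀ i, M ≤ tyn L c E (T0 ε Y) φ i) →
      ∑ φ ∈ Rs, z ^ rF L Fr (NR c Finset.univ) s.1 E (T0 ε Y) φb φ ≤
        C * (Y * Real.log Y ^ ((Nc : ℝ) - 1 - (1 - z) / Fintype.card P + B * ε)) := by
  have hPs : IsPGroup p (Ps (NR c Finset.univ)) := ps_pg hP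
  have hκs : ∀ x : Ps (NR c Finset.univ), x ^ p ^ κ = 1 := fun x => ps_pow (hκ _) (hκ _)
  have hcard : Nat.card (Ps (NR c Finset.univ)) ≤ Nat.card P * Nat.card P := ps_card _
  obtain ⟨M₀, hM₀⟩ := wrp hp hp2 hζ D hPs κ hκs (csh c) hNc (ssh c s) z hz0 hz1 E L₀ A
  refine ⟨Nat.card (Px (csh c)), M₀ + 1, by positivity, fun M hM ε hε hε1 => ?_⟩
  obtain ⟨C, C₁, A₀, Y₀, hC, hC₁, hA₀, hY₀, h⟩ := hM₀ M (by omega) ε hε hε1
  refine ⟨C, C₁, A₀, Y₀, hC, hC₁, hA₀, hY₀, ?_⟩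
  intro C₁' A₀' hC₁' hA₀' Y hY L Fr hs W Zw hZ hEZ hWB Rs hRs
  have hU' : Unz L E φb := (sim_unz hs E φb).2 hU
  have hb : ∀ v, v ∉ D.S0 → v ∉ E → ∀ τ ∈ inr L v, φb τ = 1 :=
    H55.E2.unz_inr hp hζ L hP φb E hU'
  have h1 := h C₁' A₀' hC₁' hA₀' Y hY L Fr hs W Zw hZ hEZ (wbx_mono hcard hWB)
    (Rs.image (phs (NR c Finset.univ) φb)) (fun ψ hψ => by
      obtain ⟨φ, hφ, rfl⟩ := Finset.mem_image.1 hψ
      obtain ⟨h2, h3, h4⟩ := hRs φ hφ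
      refine ⟨phs_pu h3 hb1 hsj hb (fun i => ?_) h2, fun i => ?_⟩
      · have h5 : 0 < tyn L c E (T0 ε Y) φ i := by
          have := h4 i
          omega
        unfold tyn at h5
        obtain ⟨v, h6, -, h7⟩ := Set.nonempty_of_ncard_ne_zero h5.ne'
        exact ⟨v, h6, h7⟩
      · rw [phs_tyn h3 hb]
        exact h4 i)
  have hinj : Set.InjOn (phs (NR c Finset.univ) φb) (Rs : Set (Gal(Ω/K) →* P)) := by
    intro φ hφ φ' hφ' h2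
    refine MonoidHom.ext fun σ => ?_
    have h3 := congrArg (fun g : Gal(Ω/K) →* Ps (NR c Finset.univ) => (g σ).1) h2
    beta_reduce at h3
    rw [phs_val _ _ _ (hRs φ hφ).2.1, phs_val _ _ _ (hRs φ' hφ').2.1] at h3
    exact congrArg Prod.fst h3
  have h2 : ∑ φ ∈ Rs, z ^ rF L Fr (NR c Finset.univ) s.1 E (T0 ε Y) φb φ =
      ∑ ψ ∈ Rs.image (phs (NR c Finset.univ) φb),
        z ^ rN L Fr (NR (csh c) Finset.univ) (ssh c s).1 E (T0 ε Y) ψ := by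
    rw [Finset.sum_image hinj]
    refine Finset.sum_congr rfl fun φ hφ => ?_
    rw [phs_rN (hRs φ hφ).2.1 hb]
  rw [h2]
  refine h1.trans (le_of_eq ?_)
  rw [card_psh c]
  simp only [← Nat.card_eq_fintype_card]

end main

end H35.S3
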