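import Pool.Agent.H35.S3.Nr3
import Pool.Agent.H93.BX.Blz

/-!
# H35-S3-NRU: `NR3 p` for every prime (MP_b39724_nt, stage 3)

`nr3u : p.Prime → NR3 p`, from `H35.S3.nr3` and the box lemma `H93.BX.pbl`.
-/

set_option autoImplicit false
set_option linter.dupNamespace false

noncomputable section

namespace H35.S3

open H12.S3

/-- D5 (b) FOR ALL `p`-GROUPS -/
theorem nr3u {p : ℕ} (hp : p.Prime) : NR3 p := nr3 hp (H93.BX.pbl hp)

end H35.S3
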