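import Pool.Agent.H38.S3.Lowz
import Pool.Agent.H1.UX.Uf
import Pool.Agent.H35.UX.Stp

/-!
# H35-S3-OMZ: the weight `z` on one `N`-class of labels at the split primes, sums over the labels (MP_b39724_nt, stage 3, D5 (b))

* `omz c N s z x q`: `z` if `q = 1` and the label `x` is conjugate to `s` by `N`, else `1`. `omz_oi`: it is invariant under conjugation of the label by `N`.
* `orb_sum`: the sum of `hq N x 1` over the labels `x` conjugate to `s` by `N` is `1`. `omz_sum`: the sum of `omz * hq` over all labels.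
-/

set_option autoImplicit false
set_option linter.dupNamespace false

open scoped NumberField
open IsDedekindDomain
open scoped Classical

noncomputable section

namespace H35.S3

open H63.MA H38.BB H38.BG H57.PC H57.BRA H77.WD H77.WE H77.PC3 H77.PT H35.CF H35.UB H35.UX H93.UB

variable {p Nc : ℕ} {P : Type} [Group P]

/-- the weight `z` on one class of labels at the split primes -/
def omz (c : CL p Nc P) (N : Subgroup P) [N.Normal] (s : Px c) (z : ℝ) (x : Px c) (q : P ⧸ N) : ℝ :=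
  if q = 1 ∧ ∃ u ∈ N, x.1 = u * s.1 * u⁻¹ then z else 1

theorem omz_bd (c : CL p Nc P) (N : Subgroup P) [N.Normal] (s : Px c) {z : ℝ} (hz0 : 0 ≤ z)
    (hz1 : z ≤ 1) (x : Px c) (q : P ⧸ N) : 0 ≤ omz c N s z x q ∧ omz c N s z x q ≤ 1 := by
  unfold omz
  split_ifs
  · exact ⟨hz0, hz1⟩
  · exact ⟨zero_le_one, le_rfl⟩

theorem omz_oi (c : CL p Nc P) (N : Subgroup P) [N.Normal] (s : Px c) (z : ℝ) :
    OI c N (omz c N s z) := by
  intro x x' u q hu hx
  unfold omz
  have h : (∃ w ∈ N, x'.1 = w * s.1 * w⁻¹) ↔ ∃ w ∈ N, x.1 = w * s.1 * w⁻¹ := by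
    constructor
    · rintro ⟨w, hw, h1⟩
      refine ⟨u⁻¹ * w, N.mul_mem (N.inv_mem hu) hw, ?_⟩
      have h2 : x.1 = u⁻¹ * x'.1 * u := by
        rw [hx]
        group
      rw [h2, h1]
      group
    · rintro ⟨w, hw, h1⟩
      refine ⟨u * w, N.mul_mem hu hw, ?_⟩
      rw [hx, h1]
      group
  rw [h]

variable [Fintype P]

/-- the labels which are conjugate to `s` by `N` -/
theorem orb_sum (c : CL p Nc P) (N : Subgroup P) [N.Normal] (s : Px c) :
    ∑ x : Px c, (if ∃ u ∈ N, x.1 = u * s.1 * u⁻¹ then hq N x.1 1 else 0) = 1 := by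
  have hc : ∀ u : P, ∃ i, IsConj (u * s.1 * u⁻¹) (c.g i) := fun u =>
    ⟨cid s, IsConj.trans (isConj_iff.2 ⟨u⁻¹, by group⟩) (cid_spec s)⟩
  obtain ⟨f, hf⟩ : ∃ f : N → Px c, f = fun u => ⟨u.1 * s.1 * u.1⁻¹, hc u.1⟩ := ⟨_, rfl⟩
  have hfv : ∀ u : N, (f u).1 = u.1 * s.1 * u.1⁻¹ := fun u => by rw [hf]
  have hN : (Nat.card N : ℝ) ≠ 0 := Nat.cast_ne_zero.2 Nat.card_pos.ne'
  have h1 : ∀ x : Px c, (if ∃ u ∈ N, x.1 = u * s.1 * u⁻¹ then hq N x.1 1 else 0) =
      ((Finset.univ.filter fun u : N => f u = x).card : ℝ) / Nat.card N := by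
    intro x
    split_ifs with h
    · obtain ⟨w, hw, hx⟩ := h
      have e1 : hq N x.1 1 = Gd N 0 x.1 1 := by
        rw [← hq_mk]
        rfl
      rw [e1]
      unfold Gd
      have e2 : Nat.card (Nk N 0) = Nat.card N := rfl
      rw [e2]
      congr 2
      rw [← Fintype.card_coe, ← Nat.card_eq_fintype_card]
      refine Nat.card_congr ⟨fun u => ⟨⟨u.1.1 * w, N.mul_mem u.1.2 hw⟩, ?_⟩,
        fun u => ⟨⟨u.1.1 * w⁻¹, N.mul_mem u.1.2 (N.inv_mem hw)⟩, ?_⟩, ?_, ?_⟩
      · rw [Finset.mem_filter]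
        refine ⟨Finset.mem_univ _, Subtype.ext ?_⟩
        have h2 := u.2
        rw [one_mul] at h2
        rw [hfv]
        change u.1.1 * w * s.1 * (u.1.1 * w)⁻¹ = x.1
        calc u.1.1 * w * s.1 * (u.1.1 * w)⁻¹ = u.1.1 * (w * s.1 * w⁻¹) * (u.1.1)⁻¹ := by group
          _ = u.1.1 * x.1 * (u.1.1)⁻¹ := by rw [← hx]
          _ = x.1 * u.1.1 * (u.1.1)⁻¹ := by rw [← h2]
          _ = x.1 := by group
      · have h2 := (Finset.mem_filter.1 u.2).2
        have h3 : u.1.1 * s.1 * u.1.1⁻¹ = x.1 := (hfv u.1).symm.trans (congrArg Subtype.val h2)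
        rw [one_mul]
        change x.1 * (u.1.1 * w⁻¹) = u.1.1 * w⁻¹ * x.1
        calc x.1 * (u.1.1 * w⁻¹) = (u.1.1 * s.1 * u.1.1⁻¹) * (u.1.1 * w⁻¹) := by rw [h3]
          _ = u.1.1 * w⁻¹ * (w * s.1 * w⁻¹) := by group
          _ = _ := by rw [← hx]
      · intro u
        ext
        simp
      · intro u
        ext
        simp
    · have e1 : (Finset.univ.filter fun u : N => f u = x) = ∅ := by
        rw [Finset.filter_eq_empty_iff]
        intro u _ h2
        exact h ⟨u.1, u.2, (congrArg Subtype.val h2).symm.trans (hfv u)⟩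
      rw [e1, Finset.card_empty, Nat.cast_zero, zero_div]
  rw [Finset.sum_congr rfl fun x _ => h1 x, ← Finset.sum_div, div_eq_one_iff_eq hN,
    Nat.card_eq_fintype_card, ← Finset.card_univ, ← Nat.cast_sum]
  congr 1
  exact (Finset.card_eq_sum_card_fiberwise fun x _ => Finset.mem_univ (f x)).symm

/-- the sum of the weights over all labels -/
theorem omz_sum (c : CL p Nc P) (N : Subgroup P) [N.Normal] (hN : ∀ i, c.g i ∈ N) (s : Px c)
    (z : ℝ) (q : P ⧸ N) : ∑ x : Px c, omz c N s z x q * hq N x.1 q =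
      ∑ i, fx ((Subgroup.centralizer {c.g i}).map (QuotientGroup.mk' N)) q +
        (-((1 - z) / Fintype.card (P ⧸ N))) * fx ⊥ q := by
  have h1 : ∑ x : Px c, hq N x.1 q =
      ∑ i, fx ((Subgroup.centralizer {c.g i}).map (QuotientGroup.mk' N)) q := by
    have h2 : ∀ i, fx ((Subgroup.centralizer {c.g i}).map (QuotientGroup.mk' N)) q =
        ∑ x ∈ Finset.univ.filter (fun x : Px c => cid x = i), hq N x.1 q := fun i =>
      (H1.UX.hcl_fx c N i (hN i) q).symm
    rw [Finset.sum_congr rfl fun i _ => h2 i, Finset.sum_fiberwise]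
  rw [← h1, H38.S3.fx_bot]
  have h3 : ∀ x : Px c, omz c N s z x q * hq N x.1 q = hq N x.1 q +
      (if q = 1 ∧ ∃ u ∈ N, x.1 = u * s.1 * u⁻¹ then (z - 1) * hq N x.1 q else 0) := by
    intro x
    unfold omz
    split_ifs
    · ring
    · ring
  rw [Finset.sum_congr rfl fun x _ => h3 x, Finset.sum_add_distrib]
  congr 1
  have hc : (Fintype.card (P ⧸ N) : ℝ) ≠ 0 := Nat.cast_ne_zero.2 Fintype.card_ne_zero
  by_cases hq1 : q = 1
  · subst hq1
    rw [if_pos rfl]
    have h4 : ∀ x : Px c, (if (1 : P ⧸ N) = 1 ∧ ∃ u ∈ N, x.1 = u * s.1 * u⁻¹ then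
        (z - 1) * hq N x.1 1 else 0) = (z - 1) *
        (if ∃ u ∈ N, x.1 = u * s.1 * u⁻¹ then hq N x.1 1 else 0) := by
      intro x
      by_cases h5 : ∃ u ∈ N, x.1 = u * s.1 * u⁻¹
      · rw [if_pos ⟨rfl, h5⟩, if_pos h5]
      · rw [if_neg fun h => h5 h.2, if_neg h5, mul_zero]
    rw [Finset.sum_congr rfl fun x _ => h4 x, ← Finset.mul_sum, orb_sum]
    field_simp
    ring
  · rw [if_neg hq1, mul_zero]
    refine Finset.sum_eq_zero fun x _ => ?_
    rw [if_neg fun h => hq1 h.1]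

end H35.S3
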