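import Pool.Agent.H35.S3.Wrp
import Pool.Agent.H48.MF.Ing

/-!
# H35-S3-PSH: the fibre product `P ×_(P/T) P` and the weighted upper bound for a fibre (MP_b39724_nt, stage 3, D5 (b))

* `Ps T`: the pairs `(x, y)` with `x = y` modulo `T`. `csh c`: the representatives `(c.g i, 1)`. `nr_psh`: their normal closure is the kernel of the second projection.
* `phs`: the pair `(φ, φb)`. `psh_pu`, `psh_tyn`, `psh_rN`: the transport of the conditions.
* `nrp`: the sum of `z ^ r_s(φ)` over the class-rich `φ` equal to `φb` modulo `T`.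
-/

set_option autoImplicit false
set_option linter.dupNamespace false

open scoped NumberField
open IsDedekindDomain
open scoped Classical

noncomputable section

namespace H35.S3

open H63.MA H38.BB H38.BG H57.PC H57.BRA H77.WD H77.WE H77.PC3 H77.PLF H35.CF H35.UB H35.UX

section grp

variable {p Nc : ℕ} {P : Type} [Group P]

/-- the fibre product -/
def Ps (T : Subgroup P) [T.Normal] : Subgroup (P × P) where
  carrier := {x | (x.1 : P ⧸ T) = x.2}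
  mul_mem' {x y} hx hy := by
    have h1 : (x.1 : P ⧸ T) = x.2 := hx
    have h2 : (y.1 : P ⧸ T) = y.2 := hy
    show ((x.1 * y.1 : P) : P ⧸ T) = ((x.2 * y.2 : P) : P ⧸ T)
    rw [QuotientGroup.mk_mul, QuotientGroup.mk_mul, h1, h2]
  one_mem' := rfl
  inv_mem' {x} hx := by
    have h1 : (x.1 : P ⧸ T) = x.2 := hx
    show ((x.1⁻¹ : P) : P ⧸ T) = ((x.2⁻¹ : P) : P ⧸ T)
    rw [QuotientGroup.mk_inv, QuotientGroup.mk_inv, h1]

theorem mem_ps {T : Subgroup P} [T.Normal] {x : P × P} : x ∈ Ps T ↔ (x.1 : P ⧸ T) = x.2 := Iff.rfl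

theorem one_ps {T : Subgroup P} [T.Normal] {t : P} (ht : t ∈ T) : ((t, 1) : P × P) ∈ Ps T :=
  mem_ps.2 ((QuotientGroup.eq_one_iff t).2 ht)

/-- the first projection -/
def pr1 (T : Subgroup P) [T.Normal] : Ps T →* P := (MonoidHom.fst P P).comp (Ps T).subtype

/-- the second projection -/
def pr2 (T : Subgroup P) [T.Normal] : Ps T →* P := (MonoidHom.snd P P).comp (Ps T).subtype

theorem pr1_sj (T : Subgroup P) [T.Normal] : Function.Surjective (pr1 T) :=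
  fun x => ⟨⟨(x, x), rfl⟩, rfl⟩

theorem pr2_sj (T : Subgroup P) [T.Normal] : Function.Surjective (pr2 T) :=
  fun x => ⟨⟨(x, x), rfl⟩, rfl⟩

theorem ps_ext {T : Subgroup P} [T.Normal] {x y : Ps T} (h1 : pr1 T x = pr1 T y)
    (h2 : pr2 T x = pr2 T y) : x = y := Subtype.ext (Prod.ext h1 h2)

theorem ps_pow {T : Subgroup P} [T.Normal] {x : Ps T} {n : ℕ} (h1 : pr1 T x ^ n = 1)
    (h2 : pr2 T x ^ n = 1) : x ^ n = 1 :=
  ps_ext (by rw [map_pow, h1, map_one]) (by rw [map_pow, h2, map_one])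

theorem ps_pg {T : Subgroup P} [T.Normal] (hP : IsPGroup p P) : IsPGroup p (Ps T) := by
  intro x
  obtain ⟨a, ha⟩ := hP (pr1 T x)
  obtain ⟨b, hb⟩ := hP (pr2 T x)
  refine ⟨a + b, ps_pow ?_ ?_⟩
  · rw [pow_add, pow_mul, ha, one_pow]
  · rw [pow_add, mul_comm, pow_mul, hb, one_pow]

theorem ps_card [Finite P] (T : Subgroup P) [T.Normal] :
    Nat.card (Ps T) ≤ Nat.card P * Nat.card P := by
  rw [← Nat.card_prod]
  exact Nat.card_le_card_of_injective _ Subtype.val_injective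

theorem g_mem (c : CL p Nc P) (i : Fin Nc) : c.g i ∈ NR c Finset.univ :=
  Subgroup.subset_normalClosure ⟨i, Finset.mem_univ _, IsConj.refl _⟩

theorem px_nr (c : CL p Nc P) (x : Px c) : x.1 ∈ NR c Finset.univ :=
  H1.UX.px_mem (g_mem c) x

theorem psh_conj {T : Subgroup P} [T.Normal] {a b : P} (ha : a ∈ T) (hb : b ∈ T) :
    IsConj (⟨(a, 1), one_ps ha⟩ : Ps T) ⟨(b, 1), one_ps hb⟩ ↔ IsConj a b := by
  constructor
  · intro h
    exact (pr1 T).map_isConj h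
  · intro h
    obtain ⟨x, hx⟩ := isConj_iff.1 h
    rw [isConj_iff]
    refine ⟨⟨(x, x), rfl⟩, Subtype.ext (Prod.ext hx ?_)⟩
    show x * 1 * x⁻¹ = 1
    group

/-- the representatives in the fibre product -/
def csh (c : CL p Nc P) : CL p Nc (Ps (NR c Finset.univ)) where
  g i := ⟨(c.g i, 1), one_ps (g_mem c i)⟩
  pow i := Subtype.ext (Prod.ext (c.pow i) (one_pow p))
  ne i h := c.ne i (congrArg Prod.fst (congrArg Subtype.val h))
  uni i j h := c.uni i j ((psh_conj (g_mem c i) (g_mem c j)).1 h)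

theorem nr_psh (c : CL p Nc P) :
    NR (csh c) Finset.univ = (pr2 (NR c Finset.univ)).ker := by
  have h1 : NR (csh c) Finset.univ ≤ (pr2 (NR c Finset.univ)).ker := by
    refine Subgroup.normalClosure_le_normal ?_
    rintro x ⟨i, -, hx⟩
    have h2 : IsConj (pr2 (NR c Finset.univ) x) 1 :=
      (pr2 (NR c Finset.univ)).map_isConj hx
    exact isConj_one_left.1 h2
  refine le_antisymm h1 fun x hx => ?_
  have h3 : x.1.2 = 1 := hx
  have hn : ((NR (csh c) Finset.univ).map (pr1 (NR c Finset.univ))).Normal :=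
    Subgroup.Normal.map inferInstance _ (pr1_sj _)
  have h4 : NR c Finset.univ ≤ (NR (csh c) Finset.univ).map (pr1 (NR c Finset.univ)) := by
    refine Subgroup.normalClosure_le_normal ?_
    rintro y ⟨i, -, hy⟩
    obtain ⟨w, hw⟩ := isConj_iff.1 hy.symm
    have h5 : c.g i ∈ (NR (csh c) Finset.univ).map (pr1 (NR c Finset.univ)) :=
      ⟨(csh c).g i, g_mem (csh c) i, rfl⟩
    rw [← hw]
    exact hn.conj_mem _ h5 _
  have h5 : x.1.1 ∈ NR c Finset.univ := by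
    have h6 : (x.1.1 : P ⧸ NR c Finset.univ) = x.1.2 := x.2
    rw [h3] at h6
    exact (QuotientGroup.eq_one_iff _).1 h6
  obtain ⟨y, hy, hy1⟩ := h4 h5
  have h6 : y.1.2 = 1 := h1 hy
  have h7 : y = x := Subtype.ext (Prod.ext hy1 (h6.trans h3.symm))
  rw [← h7]
  exact hy

theorem card_psh [Fintype P] (c : CL p Nc P)
    [Fintype (Ps (NR c Finset.univ) ⧸ NR (csh c) Finset.univ)] :
    Fintype.card (Ps (NR c Finset.univ) ⧸ NR (csh c) Finset.univ) = Fintype.card P := by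
  rw [← Nat.card_eq_fintype_card, ← Nat.card_eq_fintype_card]
  have h1 : Nat.card (Ps (NR c Finset.univ) ⧸ NR (csh c) Finset.univ) =
      (NR (csh c) Finset.univ).index := rfl
  rw [h1, nr_psh, Subgroup.index_ker]
  have h2 : (pr2 (NR c Finset.univ)).range = ⊤ := MonoidHom.range_eq_top.2 (pr2_sj _)
  rw [h2]
  exact Nat.card_congr Subgroup.topEquiv.toEquiv

/-- the label `(s, 1)` -/
def ssh (c : CL p Nc P) (s : Px c) : Px (csh c) :=
  ⟨⟨(s.1, 1), one_ps (px_nr c s)⟩, cid s, (psh_conj (px_nr c s) (g_mem c _)).2 (cid_spec s)⟩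

/-- the pair `(φ, φb)` -/
def phs {Γ : Type} [Group Γ] (T : Subgroup P) [T.Normal] (φb φ : Γ →* P) : Γ →* Ps T :=
  if h : ∀ σ, (φ σ : P ⧸ T) = φb σ then (φ.prod φb).codRestrict (Ps T) h else 1

theorem phs_val {Γ : Type} [Group Γ] (T : Subgroup P) [T.Normal] (φb φ : Γ →* P)
    (h : ∀ σ, (φ σ : P ⧸ T) = φb σ) (σ : Γ) : (phs T φb φ σ).1 = (φ σ, φb σ) := by
  unfold phs
  rw [dif_pos h]
  rfl

end grp

section tr

variable {K : Type} [Field K] [NumberField K] {Ω : Type} [Field Ω] [Algebra K Ω]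
  [IsAlgClosure K Ω] {p : ℕ} {ζ : K} {D : RD0 K p ζ} {P : Type} [Group P] {Nc : ℕ}

/-- the number of the large split primes with label conjugate to `s` by `T` -/
def rF (L : LDs D Ω) (Fr : FR L) (T : Subgroup P) (s : P) (E : Finset (Pl K)) (T₀ : ℝ)
    (φb φ : Gal(Ω/K) →* P) : ℕ :=
  Set.ncard {v : Pl K | v ∉ E ∧ T₀ < (nm v : ℝ) ∧ D.Gd v ∧ φb (Fr.F v) = 1 ∧
    ∃ t ∈ T, φ (L.t v) = t * s * t⁻¹}

variable {L : LDs D Ω} {c : CL p Nc P} {E : Finset (Pl K)} {φb φ : Gal(Ω/K) →* P}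

theorem phs_ft (h : ∀ σ, (φ σ : P ⧸ NR c Finset.univ) = φb σ) (hb : H38.ML.FT φb)
    (hφ : H38.ML.FT φ) : H38.ML.FT (phs (NR c Finset.univ) φb φ) := by
  obtain ⟨F, hF, h1⟩ := gtame_ft_prod φ φb hφ hb
  refine ⟨F, hF, fun σ hσ => ?_⟩
  rw [MonoidHom.mem_ker]
  refine Subtype.ext ?_
  rw [phs_val _ _ _ h]
  exact h1 hσ

theorem phs_mem (h : ∀ σ, (φ σ : P ⧸ NR c Finset.univ) = φb σ) {σ : Gal(Ω/K)} (hb : φb σ = 1) :
    φ σ ∈ NR c Finset.univ := by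
  have h1 := h σ
  rw [hb] at h1
  exact (QuotientGroup.eq_one_iff _).1 h1

theorem phs_one (h : ∀ σ, (φ σ : P ⧸ NR c Finset.univ) = φb σ) {σ : Gal(Ω/K)} (hb : φb σ = 1) :
    phs (NR c Finset.univ) φb φ σ = ⟨(φ σ, 1), one_ps (phs_mem h hb)⟩ := by
  refine Subtype.ext ?_
  rw [phs_val _ _ _ h]
  exact Prod.ext rfl hb

theorem phs_ty (h : ∀ σ, (φ σ : P ⧸ NR c Finset.univ) = φb σ) {v : Pl K}
    (hb : ∀ τ ∈ inr L v, φb τ = 1) (i : Fin Nc) :
    TyC (csh c) L (phs (NR c Finset.univ) φb φ) i v ↔ TyC c L φ i v := by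
  have ht : L.t v ∈ inr L v := H63.BU.uinr_t L v
  unfold TyC
  refine and_congr_right fun _ => and_congr ?_ ?_
  · rw [phs_one h (hb _ ht)]
    exact psh_conj (phs_mem h (hb _ ht)) (g_mem c i)
  · refine forall_congr' fun τ => forall_congr' fun hτ => ?_
    rw [phs_one h (hb _ hτ)]
    constructor
    · intro h1
      exact congrArg Prod.fst (congrArg Subtype.val h1)
    · intro h1
      exact ps_pow h1 (one_pow p)

theorem phs_ur (h : ∀ σ, (φ σ : P ⧸ NR c Finset.univ) = φb σ) {v : Pl K}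
    (hb : ∀ τ ∈ inr L v, φb τ = 1) :
    (∀ τ ∈ inr L v, phs (NR c Finset.univ) φb φ τ = 1) ↔ ∀ τ ∈ inr L v, φ τ = 1 := by
  refine forall_congr' fun τ => forall_congr' fun hτ => ?_
  rw [phs_one h (hb _ hτ)]
  constructor
  · intro h1
    exact congrArg Prod.fst (congrArg Subtype.val h1)
  · intro h1
    exact Subtype.ext (Prod.ext h1 rfl)

theorem phs_tyn (h : ∀ σ, (φ σ : P ⧸ NR c Finset.univ) = φb σ)
    (hb : ∀ v, v ∉ D.S0 → v ∉ E → ∀ τ ∈ inr L v, φb τ = 1) (T₀ : ℝ) (i : Fin Nc) :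
    tyn L (csh c) E T₀ (phs (NR c Finset.univ) φb φ) i = tyn L c E T₀ φ i := by
  unfold tyn
  congr 1
  ext v
  constructor
  · rintro ⟨h1, h2, h3⟩
    exact ⟨h1, h2, (phs_ty h (hb v h3.1.1 h1) i).1 h3⟩
  · rintro ⟨h1, h2, h3⟩
    exact ⟨h1, h2, (phs_ty h (hb v h3.1.1 h1) i).2 h3⟩

theorem phs_rN (h : ∀ σ, (φ σ : P ⧸ NR c Finset.univ) = φb σ)
    (hb : ∀ v, v ∉ D.S0 → v ∉ E → ∀ τ ∈ inr L v, φb τ = 1) (Fr : FR L) (T₀ : ℝ) (s : Px c) :
    rN L Fr (NR (csh c) Finset.univ) (ssh c s).1 E T₀ (phs (NR c Finset.univ) φb φ) =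
      rF L Fr (NR c Finset.univ) s.1 E T₀ φb φ := by
  unfold rN rF
  congr 1
  ext v
  rw [Set.mem_setOf_eq, Set.mem_setOf_eq]
  refine and_congr_right fun h1 => and_congr_right fun _ => and_congr_right fun h3 => ?_
  have ht := hb v h3.1 h1 _ (H63.BU.uinr_t L v)
  refine and_congr ?_ ?_
  · rw [nr_psh, MonoidHom.mem_ker]
    have h4 : pr2 (NR c Finset.univ) (phs (NR c Finset.univ) φb φ (Fr.F v)) = φb (Fr.F v) := by
      show (phs (NR c Finset.univ) φb φ (Fr.F v)).1.2 = _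
      rw [phs_val _ _ _ h]
    rw [h4]
  · rw [phs_one h ht]
    constructor
    · rintro ⟨u, hu, h5⟩
      have hu2 : u.1.2 = 1 := by
        rw [nr_psh] at hu
        exact hu
      have hu1 : u.1.1 ∈ NR c Finset.univ := by
        have h6 : (u.1.1 : P ⧸ NR c Finset.univ) = u.1.2 := u.2
        rw [hu2] at h6
        exact (QuotientGroup.eq_one_iff _).1 h6
      exact ⟨u.1.1, hu1, congrArg Prod.fst (congrArg Subtype.val h5)⟩
    · rintro ⟨t, ht1, h5⟩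
      refine ⟨⟨(t, 1), one_ps ht1⟩, ?_, Subtype.ext (Prod.ext h5 ?_)⟩
      · rw [nr_psh]
        rfl
      · show (1 : P) = 1 * 1 * 1⁻¹
        group

theorem phs_sj (h : ∀ σ, (φ σ : P ⧸ NR c Finset.univ) = φb σ) (hφ : Function.Surjective φ)
    (hsj : Function.Surjective φb)
    (hb : ∀ v, v ∉ D.S0 → v ∉ E → ∀ τ ∈ inr L v, φb τ = 1)
    (hc : ∀ i, ∃ v, v ∉ E ∧ TyC c L φ i v) :
    Function.Surjective (phs (NR c Finset.univ) φb φ) := by
  have hr : ∀ t ∈ NR c Finset.univ, ∃ σ, φ σ = t ∧ φb σ = 1 := by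
    obtain ⟨U, hU⟩ : ∃ U : Subgroup P, U = (φb.ker).map φ := ⟨_, rfl⟩
    have hUn : U.Normal := by
      rw [hU]
      exact Subgroup.Normal.map inferInstance _ hφ
    have h1 : NR c Finset.univ ≤ U := by
      refine Subgroup.normalClosure_le_normal ?_
      rintro y ⟨i, -, hy⟩
      obtain ⟨v, hv, hv2⟩ := hc i
      have h2 : φ (L.t v) ∈ U := by
        rw [hU]
        exact ⟨L.t v, hb v hv2.1.1 hv _ (H63.BU.uinr_t L v), rfl⟩
      obtain ⟨w, hw⟩ := isConj_iff.1 (hv2.2.1.trans hy.symm)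
      rw [← hw]
      exact hUn.conj_mem _ h2 _
    intro t ht
    have h2 := h1 ht
    rw [hU] at h2
    obtain ⟨σ, hσ, hσ2⟩ := h2
    exact ⟨σ, hσ2, hσ⟩
  intro x
  obtain ⟨τ, hτ⟩ := hsj x.1.2
  have h1 : x.1.1 * (φ τ)⁻¹ ∈ NR c Finset.univ := by
    rw [← QuotientGroup.eq_one_iff, QuotientGroup.mk_mul, QuotientGroup.mk_inv, h τ, hτ]
    have h6 : (x.1.1 : P ⧸ NR c Finset.univ) = x.1.2 := x.2
    rw [h6, mul_inv_cancel]
  obtain ⟨σ, hσ1, hσ2⟩ := hr _ h1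
  refine ⟨σ * τ, Subtype.ext ?_⟩
  rw [phs_val _ _ _ h, map_mul, map_mul, hσ1, hσ2, hτ]
  refine Prod.ext ?_ ?_
  · show x.1.1 * (φ τ)⁻¹ * φ τ = x.1.1
    group
  · show 1 * x.1.2 = x.1.2
    group

theorem phs_pu {Y : ℝ} (h : ∀ σ, (φ σ : P ⧸ NR c Finset.univ) = φb σ) (hb1 : H38.ML.FT φb)
    (hsj : Function.Surjective φb)
    (hb : ∀ v, v ∉ D.S0 → v ∉ E → ∀ τ ∈ inr L v, φb τ = 1)
    (hc : ∀ i, ∃ v, v ∉ E ∧ TyC c L φ i v) (hφ : φ ∈ PU L c E Y) :
    phs (NR c Finset.univ) φb φ ∈ PU L (csh c) E Y := by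
  obtain ⟨h1, h2, h3, h4⟩ := hφ
  refine ⟨phs_ft h hb1 h1, phs_sj h h2 hsj hb hc, fun v hv hE => ?_, fun X hX => h4 X fun v hv => ?_⟩
  · rcases h3 v hv hE with h5 | ⟨i, hi⟩
    · exact Or.inl ((phs_ur h (hb v hv hE)).2 h5)
    · exact Or.inr ⟨i, (phs_ty h (hb v hv hE) i).2 hi⟩
  · obtain ⟨h5, h6, h7⟩ := hX v hv
    exact ⟨h5, h6, fun h8 => h7 ((phs_ur h (hb v h5 h6)).2 h8)⟩

omit [NumberField K] in
theorem wbx_mono {K : Type} [Field K] [NumberField K] {Ω : Type} [Field Ω] [Algebra K Ω]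
    {p : ℕ} {ζ : K} {D : RD0 K p ζ} {κ m m' : ℕ} {L : LDs D Ω} {Fr : FR L} {A : GS D Ω}
    {W : Pl K → FW A} {Zw E : Finset (Pl K)} {C₁ A₀ ε Y : ℝ} (hm : m' ≤ m)
    (h : WBx κ m Fr A W Zw E C₁ A₀ ε Y) : WBx κ m' Fr A W Zw E C₁ A₀ ε Y :=
  ⟨fun H _ _ h1 h2 h3 => h.1 H h1 (h2.trans hm) h3,
    fun H _ _ h1 h2 h3 => h.2 H h1 (h2.trans hm) h3⟩

end tr

end H35.S3
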