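import Pool.Agent.H35.S3.Omz
import Pool.Agent.H35.UX.Sim
import Pool.Agent.H77.WE.Defs

/-!
# H35-S3-WLZ: level zero with the weight `z` on one class of labels at the large split primes (MP_b39724_nt, stage 3, D5 (b))

* `unz_fin`, `sim_unz`: the homomorphisms to a finite `p`-group which are unramified outside `S0`, `E` are finite in number and do not depend on the places.
* `lv0c`: one reduction `φ`. `lv0w`: the sum of level zero for given labels at `E` and values at the `a i`, with constants which depend on the places only through `SimL`.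
-/

set_option autoImplicit false
set_option linter.dupNamespace false

open scoped NumberField
open IsDedekindDomain
open scoped Classical

noncomputable section

namespace H35.S3

open H63.MA H38.BB H38.BG H57.PC H57.BRA H77.WD H77.WE H77.PC3 H77.PT H35.CF H35.UB H35.UX H93.UB
  H57.AN H38.S3

variable {K : Type} [Field K] [NumberField K] {Ω : Type} [Field Ω] [Algebra K Ω]
  {p : ℕ} {ζ : K} {D : RD0 K p ζ} {P : Type} [Group P] {Nc : ℕ}

theorem sim_unz {L₀ L : LDs D Ω} (h : SimL L₀ L) (E : Finset (Pl K)) {H : Type} [Group H]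
    (φ : Gal(Ω/K) →* H) : Unz L E φ ↔ Unz L₀ E φ := by
  unfold Unz
  refine and_congr_right fun _ => forall_congr' fun v => forall_congr' fun hv => ?_
  refine forall_congr' fun _ => ?_
  obtain ⟨s, h1, -⟩ := h v hv
  rw [h1, map_mul, map_mul, map_inv, conj_eq_one_iff]

theorem unz_fin [IsAlgClosure K Ω] (hp : p.Prime) (hζ : IsPrimitiveRoot ζ p) (L : LDs D Ω) (A : GS D Ω)
    (E : Finset (Pl K)) {H : Type} [Group H] [Finite H] (hH : IsPGroup p H) :
    {φ : Gal(Ω/K) →* H | Unz L E φ}.Finite := by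
  refine Set.Finite.of_injOn (f := fun φ : Gal(Ω/K) →* H =>
    ((fun v : E => φ (L.t v.1)), fun i => φ (A.a i))) (t := Set.univ)
    (fun _ _ => Set.mem_univ _) ?_ Set.finite_univ
  intro φ hφ φ' hφ' h
  refine hon_eqU hp hζ L A E φ φ' hφ hφ' (hH.to_subgroup _) (hH.to_subgroup _) (fun v hv => ?_)
    fun i => ?_
  · exact congrFun (congrArg Prod.fst h) ⟨v, hv⟩
  · exact congrFun (congrArg Prod.snd h) i

variable [IsAlgClosure K Ω] [Fintype P]

/-- level zero for one reduction -/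
theorem lv0c (hp : p.Prime) (hp2 : MOne p K) (hζ : IsPrimitiveRoot ζ p) (D : RD0 K p ζ)
    (hP : IsPGroup p P) (c : CL p Nc P) (N : Subgroup P) [N.Normal] (hN : ∀ i, c.g i ∈ N)
    (s : Px c) (z : ℝ) (hz0 : 0 ≤ z) (hz1 : z ≤ 1) (E : Finset (Pl K))
    (φ : Gal(Ω/K) →* P ⧸ N) (hφ : H38.ML.FT φ) (hs : Function.Surjective φ) :
    ∃ C : ℝ, 0 ≤ C ∧ ∀ (L : LDs D Ω) (Fr : FR L), Unz L E φ → ∀ T Y : ℝ, 3 ≤ T → T ≤ Y →
      ∀ Z : Finset (Pl K), (∀ v ∈ Z, D.Gd v ∧ v ∉ E) →
      ∑ f ∈ Cf Z (Px c), (if nc Z f ≤ Y then om Z (fun v x => if T < (nm v : ℝ) then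
        omz c N s z x (φ (Fr.F v)) * hq N x.1 (φ (Fr.F v)) else 1) f else 0) ≤
        C * (Y / Real.log Y * (Real.log T ^ (Fintype.card (Px c) : ℝ) *
          (Real.log Y / Real.log T) ^ ((Nc : ℝ) - (1 - z) / Fintype.card (P ⧸ N)))) := by
  have hQ : IsPGroup p (P ⧸ N) := hP.to_quotient N
  obtain ⟨S, hS⟩ : ∃ S : Fin Nc → Subgroup (P ⧸ N), S = fun i =>
    (Subgroup.centralizer {c.g i}).map (QuotientGroup.mk' N) := ⟨_, rfl⟩
  choose Cf' hCf using fun j => mtw_fx (Ω := Ω) hp hp2 hζ D hQ φ hφ hs (S j) E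
  obtain ⟨C₁, hC₁⟩ := mtw_fx (Ω := Ω) hp hp2 hζ D hQ φ hφ hs ⊥ E
  obtain ⟨C₂, hC₂⟩ := mtw_one D E
  obtain ⟨k, hk⟩ : ∃ k : ℝ, k = (1 - z) / Fintype.card (P ⧸ N) := ⟨_, rfl⟩
  have hcG : (0 : ℝ) < Fintype.card (P ⧸ N) := Nat.cast_pos.2 Fintype.card_pos
  have hk0 : 0 ≤ k := by
    rw [hk]
    exact div_nonneg (by linarith) hcG.le
  obtain ⟨n, hn⟩ : ∃ n : ℝ, n = Fintype.card (Px c) := ⟨_, rfl⟩
  have hn0 : 0 ≤ n := by
    rw [hn]
    positivity
  obtain ⟨C, hC⟩ : ∃ C : ℝ, C = |∑ j, Cf' j| + k * |C₁| + n * |C₂| := ⟨_, rfl⟩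
  have hB0 : (0 : ℝ) ≤ Nc * Nat.card (P ⧸ N) + n := by positivity
  obtain ⟨U, hU, h⟩ := afw D E (Nc * Nat.card (P ⧸ N) + n) n ((Nc : ℝ) - k) C hB0
  refine ⟨U, hU, fun L Fr hE T Y hT hTY Z hZ => ?_⟩
  have hom : ∀ q : P ⧸ N, ∑ x : Px c, omz c N s z x q * hq N x.1 q =
      ∑ j, fx (S j) q + (-k) * fx ⊥ q := by
    intro q
    rw [omz_sum c N hN s z q, hS, hk]
  have hh0 : ∀ (x : Px c) (q : P ⧸ N), 0 ≤ omz c N s z x q * hq N x.1 q := fun x q =>
    mul_nonneg (omz_bd c N s hz0 hz1 x q).1 (gd_nonneg _ _ _ _)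
  obtain ⟨a, ha⟩ : ∃ a : Pl K → Px c → ℝ, a = fun v x => if T < (nm v : ℝ) then
    omz c N s z x (φ (Fr.F v)) * hq N x.1 (φ (Fr.F v)) else 1 := ⟨_, rfl⟩
  have ha0 : ∀ v x, 0 ≤ a v x := by
    intro v x
    rw [ha]
    beta_reduce
    split_ifs
    · exact hh0 _ _
    · exact zero_le_one
  obtain ⟨W, hW⟩ : ∃ W : Pl K → ℝ, W = fun v => if D.Gd v ∧ v ∉ E then ∑ x, a v x else 0 :=
    ⟨_, rfl⟩
  have hW0 : ∀ v, 0 ≤ W v := by
    intro v
    rw [hW]
    beta_reduce
    split_ifs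
    · exact Finset.sum_nonneg fun x _ => ha0 v x
    · exact le_rfl
  have h1 : ∑ f ∈ Cf Z (Px c), (if nc Z f ≤ Y then om Z a f else 0) ≤
      ∑ t ∈ AF K Y, ∏ v ∈ t, W v := by
    have e1 := cf_prod Z (fun t => if nr t ≤ Y then (1 : ℝ) else 0) a
    have e2 : ∑ f ∈ Cf Z (Px c), (if nc Z f ≤ Y then om Z a f else 0) =
        ∑ f ∈ Cf Z (Px c), (if nr (sp Z f) ≤ Y then (1 : ℝ) else 0) * om Z a f := by
      refine Finset.sum_congr rfl fun f _ => ?_
      unfold nc
      split_ifs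
      · rw [one_mul]
      · rw [zero_mul]
    rw [e2, e1]
    have e3 : ∑ t ∈ Z.powerset, (if nr t ≤ Y then (1 : ℝ) else 0) * ∏ v ∈ t, ∑ x, a v x =
        ∑ t ∈ Z.powerset.filter (fun t => nr t ≤ Y), ∏ v ∈ t, W v := by
      rw [Finset.sum_filter]
      refine Finset.sum_congr rfl fun t ht => ?_
      rw [Finset.mem_powerset] at ht
      split_ifs
      · rw [one_mul]
        refine Finset.prod_congr rfl fun v hv => ?_
        rw [hW]
        beta_reduce
        rw [if_pos (hZ v (ht hv))]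
      · rw [zero_mul]
    rw [e3]
    refine Finset.sum_le_sum_of_subset_of_nonneg ?_ fun t _ _ => Finset.prod_nonneg fun v _ =>
      hW0 v
    intro t ht
    rw [mem_AF]
    exact (Finset.mem_filter.1 ht).2
  rw [ha] at h1
  refine h1.trans ?_
  have hsum : ∀ v, ∑ x, a v x = if T < (nm v : ℝ) then
      ∑ j, fx (S j) (φ (Fr.F v)) + (-k) * fx ⊥ (φ (Fr.F v)) else n := by
    intro v
    rw [ha]
    beta_reduce
    split_ifs
    · exact hom _
    · rw [Finset.sum_const, Finset.card_univ, nsmul_eq_mul, mul_one, hn]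
  have hfx : ∀ v, ∑ j, fx (S j) (φ (Fr.F v)) ≤ Nc * Nat.card (P ⧸ N) := by
    intro v
    refine (Finset.sum_le_sum fun j _ => fx_le (S j) _).trans (le_of_eq ?_)
    rw [Finset.sum_const, Finset.card_univ, Fintype.card_fin, nsmul_eq_mul]
  refine (h W (fun _ => n * 1)
    (fun v => ∑ j, fx (S j) (φ (Fr.F v)) + (-k) * fx ⊥ (φ (Fr.F v)))
    T Y ?_ ?_ ?_ ?_ ?_ ?_ hT hTY).trans (le_of_eq ?_)
  · intro v
    refine ⟨hW0 v, ?_⟩
    rw [hW]
    beta_reduce
    split_ifs with hv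
    · rw [hsum]
      have h2 : 0 ≤ k * fx ⊥ (φ (Fr.F v)) := mul_nonneg hk0 (fx_nonneg _ _)
      have h3 := hfx v
      have h4 : (0 : ℝ) ≤ Nc * Nat.card (P ⧸ N) := by positivity
      split_ifs
      · linarith
      · linarith
    · exact hB0
  · intro v hv
    rw [hW]
    beta_reduce
    rw [if_neg hv]
  · intro v hv hvE hvT
    rw [hW]
    beta_reduce
    rw [if_pos ⟨hv, hvE⟩, hsum, if_neg (not_lt.2 hvT), mul_one]
  · intro v hv hvE hvT
    rw [hW]
    beta_reduce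
    rw [if_pos ⟨hv, hvE⟩, hsum, if_pos hvT]
  · have h2 := hC₂.smul n
    have h2' : Mtw D E (fun _ => n * 1) n (|n| * C₂) := by
      intro x hx
      have h3 := h2 x hx
      have e1 : n * 1 * Real.log (Real.log x) = n * Real.log (Real.log x) := by rw [mul_one]
      rw [e1] at h3
      exact h3
    refine Mtw.mono h2' ?_
    rw [hC, abs_of_nonneg hn0]
    have h3 := abs_nonneg (∑ j, Cf' j)
    have h4 : 0 ≤ k * |C₁| := by positivity
    have h5 := mul_le_mul_of_nonneg_left (le_abs_self C₂) hn0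
    linarith
  · have h2 := Mtw.sum (Finset.univ : Finset (Fin Nc)) fun j _ => hCf j L Fr hE
    rw [Finset.sum_const, Finset.card_univ, Fintype.card_fin, nsmul_eq_mul, mul_one] at h2
    have h3 := h2.add ((hC₁ L Fr hE).smul (-k))
    rw [mul_one, abs_neg, abs_of_nonneg hk0, ← sub_eq_add_neg] at h3
    refine Mtw.mono (h3.congr fun v _ _ => rfl) ?_
    rw [hC]
    have h4 := le_abs_self (∑ j, Cf' j)
    have h5 := mul_le_mul_of_nonneg_left (le_abs_self C₁) hk0
    have h6 : 0 ≤ n * |C₂| := by positivity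
    linarith
  · rw [hk, hn]

/-- level zero for given labels at `E` and values at the `a i` -/
theorem lv0w (hp : p.Prime) (hp2 : MOne p K) (hζ : IsPrimitiveRoot ζ p) (D : RD0 K p ζ)
    (hP : IsPGroup p P) (c : CL p Nc P) (hNc : 1 ≤ Nc) (N : Subgroup P) [N.Normal]
    (hN : ∀ i, c.g i ∈ N) (s : Px c) (z : ℝ) (hz0 : 0 ≤ z) (hz1 : z ≤ 1) (E : Finset (Pl K))
    (L₀ : LDs D Ω) (A : GS D Ω) :
    ∃ C : ℝ, 0 ≤ C ∧ ∀ (L : LDs D Ω) (Fr : FR L), SimL L₀ L → ∀ Zw : Finset (Pl K), E ⊆ Zw →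
      ∀ X : Pl K → FW A,
      (∀ φ : Gal(Ω/K) →* P ⧸ N, Unz L Zw φ → ∀ v ∈ Zw, hat L A φ (X v) = φ (Fr.F v)) →
      ∀ (e : Pl K → P) (α : Fin A.g → P) (M : ℕ) (ε Y : ℝ), 0 < ε → ε < 1 → 3 ≤ Y →
      3 ≤ T0 ε Y →
      ∑ f ∈ Cf (Zg D Zw E) (Px c),
        (if Pat (LSx c).cls Finset.univ (Zg D Zw E) (T0 ε Y) M f ∧
            Hs L A E N (sp (Zg D Zw E) f) (ev A (lab E e (LSx c).val f) α) then
          psi (nc (Zg D Zw E) f / Y) * om (Zg D Zw E) (fun v x =>
            if RL (LSx c).cls Finset.univ (T0 ε Y) v x then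
              WG c N (omz c N s z) 0 x (ev A (lab E e (LSx c).val f) α (X v)) else 1) f
        else 0) ≤
        C * (Y * Real.log Y ^ ((Nc : ℝ) - 1 - (1 - z) / Fintype.card (P ⧸ N) +
          Fintype.card (Px c) * ε)) := by
  have hQ : IsPGroup p (P ⧸ N) := hP.to_quotient N
  have hFin := unz_fin hp hζ L₀ A E hQ
  obtain ⟨m, hm⟩ : ∃ m : ℝ, m = (Nc : ℝ) - (1 - z) / Fintype.card (P ⧸ N) := ⟨_, rfl⟩
  obtain ⟨n, hn⟩ : ∃ n : ℝ, n = Fintype.card (Px c) := ⟨_, rfl⟩
  have hn0 : 0 ≤ n := by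
    rw [hn]
    positivity
  have hm0 : 0 ≤ m := by
    have h1 : (1 : ℝ) ≤ Nc := by exact_mod_cast hNc
    have h2 : (1 : ℝ) ≤ Fintype.card (P ⧸ N) := by exact_mod_cast Fintype.card_pos
    have h3 : (1 - z) / Fintype.card (P ⧸ N) ≤ 1 := by
      rw [div_le_one (by linarith)]
      linarith
    rw [hm]
    linarith
  -- the constants
  have hcon : ∀ φ : Gal(Ω/K) →* P ⧸ N, ∃ C : ℝ, 0 ≤ C ∧ (H38.ML.FT φ → Function.Surjective φ →
      ∀ (L : LDs D Ω) (Fr : FR L), Unz L E φ → ∀ T Y : ℝ, 3 ≤ T → T ≤ Y →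
      ∀ Z : Finset (Pl K), (∀ v ∈ Z, D.Gd v ∧ v ∉ E) →
      ∑ f ∈ Cf Z (Px c), (if nc Z f ≤ Y then om Z (fun v x => if T < (nm v : ℝ) then
        omz c N s z x (φ (Fr.F v)) * hq N x.1 (φ (Fr.F v)) else 1) f else 0) ≤
        C * (Y / Real.log Y * (Real.log T ^ n * (Real.log Y / Real.log T) ^ m))) := by
    intro φ
    by_cases h : H38.ML.FT φ ∧ Function.Surjective φ
    · obtain ⟨C, hC, h1⟩ := lv0c hp hp2 hζ D hP c N hN s z hz0 hz1 E φ h.1 h.2
      rw [hm, hn]
      exact ⟨C, hC, fun _ _ => h1⟩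
    · exact ⟨0, le_rfl, fun h1 h2 => absurd ⟨h1, h2⟩ h⟩
  choose Cc hCc hcc using hcon
  obtain ⟨C₀, hC₀⟩ : ∃ C₀ : ℝ, C₀ = ∑ φ ∈ hFin.toFinset, Cc φ := ⟨_, rfl⟩
  have hC₀0 : 0 ≤ C₀ := by
    rw [hC₀]
    exact Finset.sum_nonneg fun φ _ => hCc φ
  refine ⟨C₀ * (2 * 2 ^ m), by positivity, ?_⟩
  intro L Fr hs Zw hEZ X hX e α M ε Y hε hε1 hY hT3
  obtain ⟨T, hT⟩ : ∃ T : ℝ, T = T0 ε Y := ⟨_, rfl⟩
  obtain ⟨Z, hZd⟩ : ∃ Z : Finset (Pl K), Z = Zg D Zw E := ⟨_, rfl⟩
  rw [← hT] at hT3 ⊢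
  rw [← hZd]
  have hZg : ∀ v ∈ Z, D.Gd v ∧ v ∉ E ∧ v ∈ Zw := by
    intro v hv
    rw [hZd] at hv
    unfold Zg at hv
    rw [Finset.mem_filter, Finset.mem_sdiff] at hv
    exact ⟨hv.2, hv.1.2, hv.1.1⟩
  have hY0 : (0 : ℝ) < Y := by linarith
  have hl1 : 1 ≤ Real.log Y := by
    rw [Real.le_log_iff_exp_le hY0]
    exact (Real.exp_one_lt_d9.le.trans (by norm_num)).trans hY
  have hl0 : 0 < Real.log Y := by linarith
  have hlT : Real.log T = Real.log Y ^ ε := by
    rw [hT]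
    unfold T0
    rw [Real.log_exp]
  have hTY : T ≤ 2 * Y := by
    have h1 : T ≤ Y := by
      rw [hT]
      unfold T0
      calc Real.exp (Real.log Y ^ ε) ≤ Real.exp (Real.log Y ^ (1 : ℝ)) :=
            Real.exp_le_exp.2 (Real.rpow_le_rpow_of_exponent_le hl1 hε1.le)
        _ = Y := by rw [Real.rpow_one, Real.exp_log hY0]
    linarith
  have hnum : 2 * Y / Real.log (2 * Y) * (Real.log T ^ n * (Real.log (2 * Y) / Real.log T) ^ m) ≤
      2 * 2 ^ m * (Y * Real.log Y ^ (m - 1 + n * ε)) := by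
    have e1 : Real.log Y ≤ Real.log (2 * Y) := Real.log_le_log hY0 (by linarith)
    have e2 : Real.log (2 * Y) ≤ 2 * Real.log Y := H1.UX.log_two_mul hY
    have e3 : 1 ≤ Real.log Y ^ ε := Real.one_le_rpow hl1 hε.le
    have e4 : 2 * Y / Real.log (2 * Y) ≤ 2 * Y / Real.log Y :=
      div_le_div_of_nonneg_left (by linarith) hl0 e1
    have e5 : (Real.log (2 * Y) / Real.log T) ^ m ≤ (2 * Real.log Y) ^ m := by
      refine Real.rpow_le_rpow (div_nonneg (by linarith) (by rw [hlT]; linarith)) ?_ hm0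
      rw [hlT]
      exact (div_le_self (by linarith) e3).trans e2
    have e6 : Real.log T ^ n = Real.log Y ^ (n * ε) := by
      rw [hlT, ← Real.rpow_mul hl0.le, mul_comm]
    rw [e6]
    calc _ ≤ 2 * Y / Real.log Y * (Real.log Y ^ (n * ε) * (2 * Real.log Y) ^ m) :=
          mul_le_mul e4 (mul_le_mul_of_nonneg_left e5 (by positivity))
            (by
              refine mul_nonneg (by positivity) (Real.rpow_nonneg ?_ _)
              exact div_nonneg (by linarith) (by rw [hlT]; linarith)) (by positivity)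
      _ = 2 * 2 ^ m * (Y * (Real.log Y ^ m * (Real.log Y)⁻¹ * Real.log Y ^ (n * ε))) := by
          rw [Real.mul_rpow (by norm_num) hl0.le]
          field_simp
      _ = _ := by
          congr 2
          rw [← Real.rpow_neg_one, ← Real.rpow_add hl0, ← Real.rpow_add hl0]
          congr 1
  have hexp : (Nc : ℝ) - 1 - (1 - z) / Fintype.card (P ⧸ N) + Fintype.card (Px c) * ε =
      m - 1 + n * ε := by
    rw [hm, hn]
    ring
  rw [hexp]
  by_cases hex : ∃ f ∈ Cf Z (Px c), Hs L A E N (sp Z f) (ev A (lab E e (LSx c).val f) α)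
  · obtain ⟨f₀, hf₀, φ, hφ1, hφ2, hφ3⟩ := hex
    have hU : Unz L E φ := by
      refine ⟨hφ1.1, fun v hv hE => ?_⟩
      have h1 := congrArg (fun g : FW A →* P ⧸ N => g (FreeGroup.of (Sum.inl v))) hφ3
      beta_reduce at h1
      rw [MonoidHom.comp_apply] at h1
      have h2 : hat L A φ (FreeGroup.of (Sum.inl v)) = φ (L.t v) := by
        unfold hat
        rw [FreeGroup.lift_apply_of]
        rfl
      rw [← h2, h1]
      unfold ev
      rw [FreeGroup.lift_apply_of]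
      show QuotientGroup.mk' N (lab E e (LSx c).val f₀ v) = 1
      unfold lab
      rw [if_neg hE]
      cases f₀ v with
      | none => exact map_one _
      | some x => exact (QuotientGroup.eq_one_iff (x.1 : P)).2 (H1.UX.px_mem hN x)
    have hUZ : Unz L Zw φ := ⟨hU.1, fun v hv hvZ => hU.2 v hv fun h => hvZ (hEZ h)⟩
    have hXf : ∀ f : Pl K → Option (Px c), ∀ v ∈ Z,
        ((ev A (lab E e (LSx c).val f) α (X v) : P) : P ⧸ N) = φ (Fr.F v) := by
      intro f v hv
      have h1 := H1.UX.ev_red A hN E e α f f₀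
      have h2 : QuotientGroup.mk' N (ev A (lab E e (LSx c).val f) α (X v)) =
          (QuotientGroup.mk' N).comp (ev A (lab E e (LSx c).val f₀) α) (X v) := by
        exact congrArg (fun g : FW A →* P ⧸ N => g (X v)) h1
      rw [← hφ3, hX φ hUZ v (hZg v hv).2.2] at h2
      exact h2
    have hφF : φ ∈ hFin.toFinset := by
      rw [Set.Finite.mem_toFinset]
      exact (sim_unz hs E φ).1 hU
    have hCle : Cc φ ≤ C₀ := by
      rw [hC₀]
      exact Finset.single_le_sum (f := Cc) (fun φ _ => hCc φ) hφF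
    have h3 := hcc φ hU.1 hφ2 L Fr hU T (2 * Y) hT3 hTY Z fun v hv =>
      ⟨(hZg v hv).1, (hZg v hv).2.1⟩
    have h4 : ∑ f ∈ Cf Z (Px c),
        (if Pat (LSx c).cls Finset.univ Z T M f ∧
            Hs L A E N (sp Z f) (ev A (lab E e (LSx c).val f) α) then
          psi (nc Z f / Y) * om Z (fun v x =>
            if RL (LSx c).cls Finset.univ T v x then
              WG c N (omz c N s z) 0 x (ev A (lab E e (LSx c).val f) α (X v)) else 1) f
        else 0) ≤ ∑ f ∈ Cf Z (Px c), (if nc Z f ≤ 2 * Y then om Z (fun v x =>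
          if T < (nm v : ℝ) then
            omz c N s z x (φ (Fr.F v)) * hq N x.1 (φ (Fr.F v)) else 1) f else 0) := by
      refine Finset.sum_le_sum fun f _ => ?_
      have hom2 : ∀ f' : Pl K → Option (Px c), 0 ≤ om Z (fun v x => if T < (nm v : ℝ) then
          omz c N s z x (φ (Fr.F v)) * hq N x.1 (φ (Fr.F v)) else 1) f' := fun f' =>
        om_nonneg _ _ (fun v x => by
          split_ifs
          · exact mul_nonneg (omz_bd c N s hz0 hz1 _ _).1 (gd_nonneg _ _ _ _)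
          · exact zero_le_one) _
      have heq : om Z (fun v x => if RL (LSx c).cls Finset.univ T v x then
              WG c N (omz c N s z) 0 x (ev A (lab E e (LSx c).val f) α (X v)) else 1) f =
          om Z (fun v x => if T < (nm v : ℝ) then
            omz c N s z x (φ (Fr.F v)) * hq N x.1 (φ (Fr.F v)) else 1) f := by
        unfold om
        refine Finset.prod_congr rfl fun v hv => ?_
        cases f v with
        | none => rfl
        | some x =>
          show (if RL (LSx c).cls Finset.univ T v x then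
              WG c N (omz c N s z) 0 x (ev A (lab E e (LSx c).val f) α (X v)) else 1) =
            if T < (nm v : ℝ) then
              omz c N s z x (φ (Fr.F v)) * hq N x.1 (φ (Fr.F v)) else 1
          have hRL : RL (LSx c).cls Finset.univ T v x ↔ T < (nm v : ℝ) := by
            unfold RL
            exact ⟨fun h => h.2, fun h => ⟨Finset.mem_univ _, h⟩⟩
          by_cases hv1 : T < (nm v : ℝ)
          · rw [if_pos (hRL.2 hv1), if_pos hv1]
            unfold WG
            rw [hXf f v hv]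
            congr 1
            rw [← hXf f v hv, hq_mk]
          · rw [if_neg fun h => hv1 (hRL.1 h), if_neg hv1]
      split_ifs with h5 h6 h6
      · rw [heq]
        exact mul_le_of_le_one_left (hom2 f) (H35.UB.psi_le_one _)
      · rw [H1.UX.psi_zero, zero_mul]
        rw [lt_div_iff₀ hY0]
        linarith
      · exact hom2 f
      · exact le_rfl
    refine h4.trans (h3.trans ?_)
    have h5 : 0 ≤ 2 * Y / Real.log (2 * Y) *
        (Real.log T ^ n * (Real.log (2 * Y) / Real.log T) ^ m) := by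
      have e1 : 0 ≤ Real.log (2 * Y) := Real.log_nonneg (by linarith)
      have e2 : 0 ≤ Real.log T := Real.log_nonneg (by linarith)
      positivity
    calc _ ≤ C₀ * (2 * Y / Real.log (2 * Y) *
          (Real.log T ^ n * (Real.log (2 * Y) / Real.log T) ^ m)) :=
          mul_le_mul_of_nonneg_right hCle h5
      _ ≤ C₀ * (2 * 2 ^ m * (Y * Real.log Y ^ (m - 1 + n * ε))) :=
          mul_le_mul_of_nonneg_left hnum hC₀0
      _ = _ := by ring
  · refine le_trans (le_of_eq (Finset.sum_eq_zero fun f hf => ?_)) ?_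
    · rw [if_neg]
      exact fun h => hex ⟨f, hf, h.2⟩
    · positivity

end H35.S3
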