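import Pool.Agent.H35.S3.Wlz
import Pool.Agent.H35.UX.Fin

/-!
# H35-S3-WRP: the weighted upper bound with loss (MP_b39724_nt, stage 3, D5 (b))

* `WBx`: the words `W` for all `p`-groups of order at most `m` and exponent `p ^ κ`, and the box lemma `BLatX` for them.
* `rN L Fr N s E T φ`: the number of the large good primes `v` outside `E` with `φ (F_v) ∈ N` and `φ (t_v)` conjugate to `s` by `N`.
* `wrp`: the sum of `z ^ rN φ` over surjective `φ`, typed outside `S0`, `E`, with all classes rich.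
-/

set_option autoImplicit false
set_option linter.dupNamespace false

open scoped NumberField
open IsDedekindDomain
open scoped Classical

noncomputable section

namespace H35.S3

open H63.MA H38.BB H38.BG H57.PC H57.BRA H77.WD H77.WE H77.PC3 H77.PLF H35.CF H35.UB H35.UX

variable {K : Type} [Field K] [NumberField K] {Ω : Type} [Field Ω] [Algebra K Ω]
  {p : ℕ} {ζ : K} {D : RD0 K p ζ} {P : Type} [Group P] {Nc : ℕ}

/-- the words and the box lemma for the groups of order at most `m` and exponent `p ^ κ` -/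
def WBx (κ m : ℕ) {L : LDs D Ω} (Fr : FR L) (A : GS D Ω) (W : Pl K → FW A)
    (Zw E : Finset (Pl K)) (C₁ A₀ ε Y : ℝ) : Prop :=
  (∀ (H : Type) [Group H] [Finite H], IsPGroup p H → Nat.card H ≤ m → (∀ x : H, x ^ p ^ κ = 1) →
    ∀ φ : Gal(Ω/K) →* H, Unz L Zw φ → ∀ v ∈ Zw, hat L A φ (W v) = φ (Fr.F v)) ∧
  ∀ (H : Type) [Group H] [Finite H], IsPGroup p H → Nat.card H ≤ m → (∀ x : H, x ^ p ^ κ = 1) →
    ∀ (N : Subgroup H) [N.Normal] (n : ℕ), Nk N (n + 1) = ⊥ →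
      N = Subgroup.closure {x | x ∈ N ∧ x ^ p = 1} → BLatX L A W Zw E N n C₁ A₀ ε Y

/-- the number of the large split primes with label conjugate to `s` by `N` -/
def rN (L : LDs D Ω) (Fr : FR L) (N : Subgroup P) (s : P) (E : Finset (Pl K)) (T : ℝ)
    (φ : Gal(Ω/K) →* P) : ℕ :=
  Set.ncard {v : Pl K | v ∉ E ∧ T < (nm v : ℝ) ∧ D.Gd v ∧ φ (Fr.F v) ∈ N ∧
    ∃ u ∈ N, φ (L.t v) = u * s * u⁻¹}

/-- the ramified primes are finite in number -/
theorem ram_fin {L : LDs D Ω} {c : CL p Nc P} {E : Finset (Pl K)} {Y : ℝ} {φ : Gal(Ω/K) →* P}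
    (hφ : φ ∈ PU L c E Y) : {v : Pl K | v ∉ D.S0 ∧ v ∉ E ∧ φ (L.t v) ≠ 1}.Finite := by
  obtain ⟨-, -, -, h4⟩ := hφ
  refine (H57.AN.pl_fin K Y).subset ?_
  rintro v ⟨h1, h2, h3⟩
  have h5 := h4 {v} (fun w hw => by
    rw [Finset.mem_singleton] at hw
    subst hw
    exact ⟨h1, h2, fun h => h3 (h _ (H63.BU.uinr_t L w))⟩)
  rw [Finset.prod_singleton] at h5
  exact h5

/-- all level steps, weight `1` at the small primes -/
theorem chw [Fintype P] [NeZero p] (hp : p.Prime) (A : GS D Ω) (c : CL p Nc P) (k₀ M : ℕ)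
    (hM : ∀ k < k₀, (k + 2) * (Nc * Nat.card P ^ 3) ≤ M)
    (ω : Px c → P ⧸ NR c Finset.univ → ℝ) (hω : ∀ i q, 0 ≤ ω i q ∧ ω i q ≤ 1)
    (hωN : OI c (NR c Finset.univ) ω) (A₁ ε : ℝ) (hε : 0 < ε) (hε1 : ε < 1) (j : ℕ)
    (hj : j ≤ k₀) :
    ∃ C C₁ A₀ Y₀ : ℝ, 1 ≤ C ∧ 2 ≤ C₁ ∧ 0 ≤ A₀ ∧ 3 ≤ Y₀ ∧ ∀ C₁' A₀' : ℝ, C₁ ≤ C₁' → A₀ ≤ A₀' →
      ∀ Y : ℝ, Y₀ ≤ Y → ∀ (L : LDs D Ω) (W : Pl K → FW A)
      (Zw E : Finset (Pl K)) (e : Pl K → P), EOk A₁ Y Zw E →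
      (∀ k < j, BLatX L A W Zw E ((NR c Finset.univ).map
          (QuotientGroup.mk' (Nk (NR c Finset.univ) (k + 1)))) k C₁' A₀' ε Y) →
      SAx (LSx c) L A W (NR c Finset.univ) Finset.univ M (T0 ε Y) Zw E e
          (WG c (NR c Finset.univ) ω j) (fun _ _ => 1) Y ≤
        C * (SAx (LSx c) L A W (NR c Finset.univ) Finset.univ M (T0 ε Y) Zw E e
          (WG c (NR c Finset.univ) ω 0) (fun _ _ => 1) Y + Y * Real.log Y ^ (-(1 : ℝ))) := by
  induction j with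
  | zero =>
    refine ⟨1, 2, 0, 3, le_rfl, le_rfl, le_rfl, le_rfl, ?_⟩
    intro C₁' A₀' _ _ Y hY L W Zw E e _ _
    have h1 : 0 ≤ Y * Real.log Y ^ (-(1 : ℝ)) := by
      have : 0 ≤ Real.log Y := Real.log_nonneg (by linarith)
      positivity
    linarith
  | succ j ih =>
    obtain ⟨C, C₁, A₀, Y₀, hC, hC₁, hA₀, hY₀, h⟩ := ih (by omega)
    obtain ⟨C', C₂, A₂', Y₀', hC', hC₂, hA₂', hY₀', h'⟩ :=
      stpx hp D A c Finset.univ j M (hM j (by omega)) ω hω hωN (fun _ _ => 1)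
        (fun x y => ⟨zero_le_one, le_rfl⟩) (fun g x u hu => rfl) A₁ 1 ε hε hε1
    refine ⟨C' * C + 1, max C₁ C₂, max A₀ A₂', max Y₀ Y₀', ?_,
      hC₁.trans (le_max_left _ _), hA₀.trans (le_max_left _ _), hY₀.trans (le_max_left _ _), ?_⟩
    · have : 0 ≤ C' * C := mul_nonneg (by linarith) (by linarith)
      linarith
    intro C₁' A₀' hC₁' hA₀' Y hY L W Zw E e hE hB
    have hY1 : Y₀ ≤ Y := (le_max_left _ _).trans hY
    have hY2 : Y₀' ≤ Y := (le_max_right _ _).trans hY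
    have hYp : 3 ≤ Y := hY₀.trans hY1
    have k1 := h C₁' A₀' ((le_max_left _ _).trans hC₁') ((le_max_left _ _).trans hA₀') Y hY1
      L W Zw E e hE fun k hk => hB k (by omega)
    have k2 := h' C₁' A₀' ((le_max_right _ _).trans hC₁') ((le_max_right _ _).trans hA₀') Y hY2
      L W Zw E e hE (hB j (by omega))
    have h1 : 0 ≤ Y * Real.log Y ^ (-(1 : ℝ)) := by
      have : 0 ≤ Real.log Y := Real.log_nonneg (by linarith)
      positivity
    have h0 : 0 ≤ SAx (LSx c) L A W (NR c Finset.univ) Finset.univ M (T0 ε Y) Zw E e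
        (WG c (NR c Finset.univ) ω 0) (fun _ _ => 1) Y := by
      unfold SAx
      refine Finset.sum_nonneg fun f _ => Finset.sum_nonneg fun α _ => ?_
      split_ifs
      · refine mul_nonneg (psi_nonneg _) (om_nonneg _ _ (fun v x => ?_) _)
        split_ifs
        · exact (wg_bd c _ _ hω _ _ _).1
        · exact zero_le_one
      · exact le_rfl
    obtain ⟨S0, hS0⟩ : ∃ S0 : ℝ, S0 = SAx (LSx c) L A W (NR c Finset.univ) Finset.univ M
      (T0 ε Y) Zw E e (WG c (NR c Finset.univ) ω 0) (fun _ _ => 1) Y := ⟨_, rfl⟩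
    rw [← hS0] at h0 k1 ⊢
    refine k2.trans ?_
    have h3 := mul_le_mul_of_nonneg_left k1 (by linarith : 0 ≤ C')
    calc _ ≤ C' * (C * (S0 + Y * Real.log Y ^ (-(1 : ℝ)))) +
          (S0 + Y * Real.log Y ^ (-(1 : ℝ))) := by linarith
      _ = _ := by ring

/-- THE WEIGHTED UPPER BOUND WITH LOSS -/
theorem wrp [IsAlgClosure K Ω] [Fintype P] (hp : p.Prime) (hp2 : MOne p K)
    (hζ : IsPrimitiveRoot ζ p) (D : RD0 K p ζ) (hP : IsPGroup p P) (κ : ℕ)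
    (hκ : ∀ x : P, x ^ p ^ κ = 1) (c : CL p Nc P) (hNc : 1 ≤ Nc) (s : Px c) (z : ℝ) (hz0 : 0 < z)
    (hz1 : z ≤ 1) (E : Finset (Pl K)) (L₀ : LDs D Ω) (A : GS D Ω) :
    ∃ M₀ : ℕ, ∀ M : ℕ, M₀ ≤ M → ∀ ε : ℝ, 0 < ε → ε < 1 →
      ∃ C C₁ A₀ Y₀ : ℝ, 0 ≤ C ∧ 2 ≤ C₁ ∧ 0 ≤ A₀ ∧ 3 ≤ Y₀ ∧ ∀ C₁' A₀' : ℝ, C₁ ≤ C₁' → A₀ ≤ A₀' →
      ∀ Y : ℝ, Y₀ ≤ Y → ∀ (L : LDs D Ω) (Fr : FR L), SimL L₀ L →
      ∀ (W : Pl K → FW A) (Zw : Finset (Pl K)), ZwOk D C₁' Y Zw → E ⊆ Zw →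
      WBx κ (Nat.card P) Fr A W Zw E C₁' A₀' ε Y →
      ∀ Rs : Finset (Gal(Ω/K) →* P), (∀ φ ∈ Rs, φ ∈ PU L c E Y ∧
        ∀ i, M ≤ tyn L c E (T0 ε Y) φ i) →
      ∑ φ ∈ Rs, z ^ rN L Fr (NR c Finset.univ) s.1 E (T0 ε Y) φ ≤
        C * (Y * Real.log Y ^ ((Nc : ℝ) - 1 - (1 - z) / Fintype.card (P ⧸ NR c Finset.univ) +
          Fintype.card (Px c) * ε)) := by
  have : NeZero p := ⟨hp.ne_zero⟩
  have hNm : ∀ i, c.g i ∈ NR c Finset.univ := fun i =>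
    Subgroup.subset_normalClosure ⟨i, Finset.mem_univ _, IsConj.refl _⟩
  obtain ⟨k₀, hk₀⟩ := nk_bot hp hP (NR c Finset.univ)
  obtain ⟨ω, hωd⟩ : ∃ ω : Px c → P ⧸ NR c Finset.univ → ℝ,
    ω = omz c (NR c Finset.univ) s z := ⟨_, rfl⟩
  have hω : ∀ i q, 0 ≤ ω i q ∧ ω i q ≤ 1 := fun i q => by
    rw [hωd]
    exact omz_bd c _ s hz0.le hz1 i q
  have hωN : OI c (NR c Finset.univ) ω := by
    rw [hωd]
    exact omz_oi c _ s z
  refine ⟨(k₀ + 2) * (Nc * Nat.card P ^ 3), fun M hM ε hε hε1 => ?_⟩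
  have hM1 : ∀ k < k₀, (k + 2) * (Nc * Nat.card P ^ 3) ≤ M := by
    intro k hk
    exact (Nat.mul_le_mul_right _ (by omega)).trans hM
  obtain ⟨C, C₁, A₀, Y₀, hC, hC₁, hA₀, hY₀, h⟩ :=
    chw hp A c k₀ M hM1 ω hω hωN 1 ε hε hε1 k₀ le_rfl
  obtain ⟨C₂, hC₂, h₂⟩ := lv0w hp hp2 hζ D hP c hNc (NR c Finset.univ) hNm s z hz0.le hz1 E L₀ A
  obtain ⟨q, hq⟩ : ∃ q : ℝ, q = Nat.card P := ⟨_, rfl⟩
  have hq0 : 0 ≤ q := by
    rw [hq]
    positivity
  obtain ⟨m, hm⟩ : ∃ m : ℝ, m = (Nc : ℝ) - 1 - (1 - z) / Fintype.card (P ⧸ NR c Finset.univ) +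
    Fintype.card (Px c) * ε := ⟨_, rfl⟩
  have hm1 : -1 ≤ m := by
    have h1 : (1 : ℝ) ≤ Nc := by exact_mod_cast hNc
    have h2 : (1 : ℝ) ≤ Fintype.card (P ⧸ NR c Finset.univ) := by
      exact_mod_cast Fintype.card_pos
    have h3 : (1 - z) / Fintype.card (P ⧸ NR c Finset.univ) ≤ 1 := by
      rw [div_le_one (by linarith)]
      linarith
    have h4 : 0 ≤ (Fintype.card (Px c) : ℝ) * ε := by positivity
    rw [hm]
    linarith
  obtain ⟨Y₁, hY₁⟩ : ∃ Y₁ : ℝ, 3 ≤ Y₁ ∧ ∀ Y : ℝ, Y₁ ≤ Y → 3 ≤ T0 ε Y ∧ nr E ≤ Real.log Y := by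
    have hL : Filter.Tendsto (fun Y : ℝ => Real.log Y) Filter.atTop Filter.atTop :=
      Real.tendsto_log_atTop
    have hLε : Filter.Tendsto (fun Y : ℝ => Real.log Y ^ ε) Filter.atTop Filter.atTop :=
      (tendsto_rpow_atTop hε).comp Real.tendsto_log_atTop
    obtain ⟨Y₁, h1⟩ := Filter.eventually_atTop.1 ((hL.eventually_ge_atTop (nr E)).and
      (hLε.eventually_ge_atTop 2))
    refine ⟨max 3 Y₁, le_max_left _ _, fun Y hY => ?_⟩
    obtain ⟨h2, h3⟩ := h1 Y ((le_max_right _ _).trans hY)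
    refine ⟨?_, h2⟩
    unfold T0
    have h4 := Real.add_one_le_exp (Real.log Y ^ ε)
    linarith
  refine ⟨q ^ E.card * (C * (q ^ A.g * C₂ + 1)), C₁, A₀, max Y₀ Y₁, by positivity, hC₁, hA₀,
    hY₀.trans (le_max_left _ _), ?_⟩
  intro C₁' A₀' hC₁' hA₀' Y hY L Fr hs W Zw hZ hEZ hWB Rs hRs
  rw [← hm]
  have hYa : Y₀ ≤ Y := (le_max_left _ _).trans hY
  have hYb : Y₁ ≤ Y := (le_max_right _ _).trans hY
  have hY3 : 3 ≤ Y := hY₀.trans hYa
  have hY0 : (0 : ℝ) < Y := by linarith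
  have hl : 1 ≤ Real.log Y := by
    rw [Real.le_log_iff_exp_le hY0]
    exact (Real.exp_one_lt_d9.le.trans (by norm_num)).trans hY3
  obtain ⟨hT3, hnE⟩ := hY₁.2 Y hYb
  have hEO : EOk 1 Y Zw E := ⟨hEZ, by rw [Real.rpow_one]; exact hnE⟩
  have hWP : ∀ φ : Gal(Ω/K) →* P, Unz L Zw φ → ∀ v ∈ Zw, hat L A φ (W v) = φ (Fr.F v) :=
    hWB.1 P hP le_rfl hκ
  have hWq : ∀ φ : Gal(Ω/K) →* P ⧸ NR c Finset.univ, Unz L Zw φ → ∀ v ∈ Zw,
      hat L A φ (W v) = φ (Fr.F v) := by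
    refine hWB.1 _ (hP.to_quotient _) ?_ fun x => ?_
    · exact Nat.card_le_card_of_surjective _ (QuotientGroup.mk'_surjective _)
    · obtain ⟨y, rfl⟩ := QuotientGroup.mk'_surjective _ x
      rw [← map_pow, hκ, map_one]
  -- the box lemmas
  have hBB : ∀ k < k₀, BLatX L A W Zw E ((NR c Finset.univ).map
      (QuotientGroup.mk' (Nk (NR c Finset.univ) (k + 1)))) k C₁' A₀' ε Y := by
    intro k _
    refine hWB.2 (P ⧸ Nk (NR c Finset.univ) (k + 1)) (hP.to_quotient _) ?_ ?_ _ k ?_ ?_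
    · exact Nat.card_le_card_of_surjective _
        (QuotientGroup.mk'_surjective (Nk (NR c Finset.univ) (k + 1)))
    · intro x
      obtain ⟨y, rfl⟩ := QuotientGroup.mk'_surjective (Nk (NR c Finset.univ) (k + 1)) x
      rw [← map_pow, hκ, map_one]
    · rw [nk_map, QuotientGroup.map_mk'_self]
    · refine le_antisymm ?_ ((Subgroup.closure_le _).2 fun x hx => hx.1)
      calc (NR c Finset.univ).map (QuotientGroup.mk' (Nk (NR c Finset.univ) (k + 1))) =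
            (Subgroup.closure {x | x ∈ NR c Finset.univ ∧ x ^ p = 1}).map
              (QuotientGroup.mk' (Nk (NR c Finset.univ) (k + 1))) :=
            congrArg (fun N : Subgroup P => N.map
              (QuotientGroup.mk' (Nk (NR c Finset.univ) (k + 1)))) (nr_cl c Finset.univ)
        _ = Subgroup.closure ((QuotientGroup.mk' (Nk (NR c Finset.univ) (k + 1))) ''
              {x | x ∈ NR c Finset.univ ∧ x ^ p = 1}) := MonoidHom.map_closure _ _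
        _ ≤ _ := by
            refine Subgroup.closure_mono ?_
            rintro _ ⟨y, ⟨hy1, hy2⟩, rfl⟩
            exact ⟨Subgroup.mem_map_of_mem _ hy1, by rw [← map_pow, hy2, map_one]⟩
  -- level zero
  have h0 : ∀ e : Pl K → P, SAx (LSx c) L A W (NR c Finset.univ) Finset.univ M (T0 ε Y) Zw E e
      (WG c (NR c Finset.univ) ω 0) (fun _ _ => 1) Y ≤
      q ^ A.g * (C₂ * (Y * Real.log Y ^ m)) := by
    intro e
    unfold SAx
    rw [Finset.sum_comm, hωd]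
    refine (Finset.sum_le_sum fun α _ => h₂ L Fr hs Zw hEZ W hWq e α M ε Y hε hε1 hY3 hT3).trans
      (le_of_eq ?_)
    rw [Finset.sum_const, Finset.card_univ, Fintype.card_fun, Fintype.card_fin, nsmul_eq_mul,
      Nat.cast_pow, ← Nat.card_eq_fintype_card, ← hq, ← hm]
  -- the top level
  have hpw : ∀ φ : Gal(Ω/K) →* P, φ ∈ PU L c E Y → ∀ (t : Finset (Pl K)) (y : Pl K → Px c),
      (∀ v ∈ t, v ∉ E ∧ T0 ε Y < (nm v : ℝ) ∧ cid (y v) ∈ (Finset.univ : Finset (Fin Nc)) ∧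
        (y v).1 = φ (L.t v) ∧ TyC c L φ (cid (y v)) v) →
      z ^ rN L Fr (NR c Finset.univ) s.1 E (T0 ε Y) φ ≤
        ∏ v ∈ t, ω (y v) (φ (Fr.F v) : P ⧸ NR c Finset.univ) := by
    intro φ hφ t y ht
    rw [hωd]
    have e1 : ∏ v ∈ t, omz c (NR c Finset.univ) s z (y v) (φ (Fr.F v) : P ⧸ NR c Finset.univ) =
        z ^ (t.filter fun v => (φ (Fr.F v) : P ⧸ NR c Finset.univ) = 1 ∧
          ∃ u ∈ NR c Finset.univ, (y v).1 = u * s.1 * u⁻¹).card := by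
      rw [← Finset.prod_const, Finset.prod_filter]
      refine Finset.prod_congr rfl fun v _ => ?_
      unfold omz
      by_cases h1 : (φ (Fr.F v) : P ⧸ NR c Finset.univ) = 1 ∧
          ∃ u ∈ NR c Finset.univ, (y v).1 = u * s.1 * u⁻¹
      · rw [if_pos h1, if_pos h1]
      · rw [if_neg h1, if_neg h1]
    rw [e1]
    refine pow_le_pow_of_le_one hz0.le hz1 ?_
    rw [← Set.ncard_coe_finset]
    unfold rN
    have hs1 : s.1 ≠ 1 := by
      obtain ⟨i, hi⟩ := s.2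
      intro h1
      rw [h1] at hi
      exact c.ne i (isConj_one_right.1 hi)
    refine Set.ncard_le_ncard ?_ ((ram_fin hφ).subset ?_)
    · intro v hv
      rw [Finset.mem_coe, Finset.mem_filter] at hv
      obtain ⟨h1, h2, -, h3, h4⟩ := ht v hv.1
      refine ⟨h1, h2, h4.1, (QuotientGroup.eq_one_iff _).1 hv.2.1, ?_⟩
      rw [← h3]
      exact hv.2.2
    · rintro v ⟨h1, -, h2, -, u, -, h3⟩
      refine ⟨h2.1, h1, fun h4 => hs1 ?_⟩
      rw [h4] at h3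
      have h5 : s.1 = u⁻¹ * (u * s.1 * u⁻¹) * u := by group
      rw [h5, ← h3]
      group
  obtain ⟨Re, hRe⟩ : ∃ Re : (E → P) → Finset (Gal(Ω/K) →* P), Re = fun e =>
    Rs.filter fun φ => φ ∈ PE L c E (exE E e) Finset.univ M (T0 ε Y) Y := ⟨_, rfl⟩
  have ht1 : ∑ φ ∈ Rs, z ^ rN L Fr (NR c Finset.univ) s.1 E (T0 ε Y) φ ≤
      ∑ e : E → P, ∑ φ ∈ Re e, z ^ rN L Fr (NR c Finset.univ) s.1 E (T0 ε Y) φ := by
    have h0 : ∀ e : E → P, ∑ φ ∈ Re e, z ^ rN L Fr (NR c Finset.univ) s.1 E (T0 ε Y) φ =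
        ∑ φ ∈ Rs, if φ ∈ PE L c E (exE E e) Finset.univ M (T0 ε Y) Y then
          z ^ rN L Fr (NR c Finset.univ) s.1 E (T0 ε Y) φ else 0 := by
      intro e
      rw [hRe, Finset.sum_filter]
    rw [Finset.sum_congr rfl fun e _ => h0 e, Finset.sum_comm]
    refine Finset.sum_le_sum fun φ hφ => ?_
    have h1 : φ ∈ PE L c E (exE E fun v => φ (L.t v.1)) Finset.univ M (T0 ε Y) Y := by
      obtain ⟨⟨p1, p2, p3, p4⟩, h3⟩ := hRs φ hφ
      refine ⟨p1, p2, fun v hv => ?_, p3, p4, fun i => ?_⟩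
      · unfold exE
        rw [dif_pos hv]
      · exact ⟨fun _ => h3 i, fun _ => Finset.mem_univ _⟩
    have h2 := Finset.single_le_sum (f := fun e : E → P =>
      if φ ∈ PE L c E (exE E e) Finset.univ M (T0 ε Y) Y then
        z ^ rN L Fr (NR c Finset.univ) s.1 E (T0 ε Y) φ else 0) (fun e _ => by
        beta_reduce
        split_ifs
        · exact pow_nonneg hz0.le _
        · exact le_rfl) (Finset.mem_univ fun v : E => φ (L.t v.1))
    beta_reduce at h2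
    rwa [if_pos h1] at h2
  have ht2 : ∀ e : E → P, ∑ φ ∈ Re e, z ^ rN L Fr (NR c Finset.univ) s.1 E (T0 ε Y) φ ≤
      C * (q ^ A.g * C₂ + 1) * (Y * Real.log Y ^ m) := by
    intro e
    have h3 := topx hp hζ hP L A Fr c ⟨0, hNc⟩ Finset.univ k₀ M hk₀ ω hω (fun _ _ => 1)
      (fun g x => zero_le_one) (fun g x hgx => le_rfl) (T0 ε Y) C₁' Y hY3 (by linarith)
      Zw E (exE E e) hZ hEZ W hWP
      (fun φ => z ^ rN L Fr (NR c Finset.univ) s.1 E (T0 ε Y) φ) (Re e) (fun φ hφ => by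
        rw [hRe] at hφ
        beta_reduce at hφ
        rw [Finset.mem_filter] at hφ
        exact ⟨hφ.2, fun t y hty => hpw φ (hRs φ hφ.1).1 t y hty⟩)
    have h4 := h C₁' A₀' hC₁' hA₀' Y hYa L W Zw E (exE E e) hEO hBB
    have h5 : Y * Real.log Y ^ (-(1 : ℝ)) ≤ Y * Real.log Y ^ m :=
      mul_le_mul_of_nonneg_left (Real.rpow_le_rpow_of_exponent_le hl hm1) hY0.le
    calc _ ≤ _ := h3
      _ ≤ _ := h4
      _ ≤ C * (q ^ A.g * (C₂ * (Y * Real.log Y ^ m)) + Y * Real.log Y ^ m) :=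
          mul_le_mul_of_nonneg_left (add_le_add (h0 (exE E e)) h5) (by linarith)
      _ = _ := by ring
  calc _ ≤ _ := ht1
    _ ≤ ∑ e : E → P, C * (q ^ A.g * C₂ + 1) * (Y * Real.log Y ^ m) :=
        Finset.sum_le_sum fun e _ => ht2 e
    _ = _ := by
        rw [Finset.sum_const, Finset.card_univ, Fintype.card_fun, Fintype.card_coe, nsmul_eq_mul,
          Nat.cast_pow, ← Nat.card_eq_fintype_card, ← hq]
        ring

end H35.S3
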